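import Pool.Agent.Y89.TX.Main4

/-!
# The condition of independence for `B = K`
-/

open Matrix Finset Function

set_option linter.unusedSectionVars false

namespace Pool.Agent.Y89.TX

noncomputable section

open Pool.Agent.W544.PG (HS HW mC cspan cx)
open Pool.Agent.Y89.KS
open Pool.Agent.Y89.TS
open Pool.Agent.Y89.TU hiding KA mem_KA Linked

section
variable {n w k : ℕ} {V : HS n} {W : HW w} {Γ : Fin n → Matrix (Fin w) (Fin w) ℚ} {c : ℚ}

/-- the system of all Hodge classes -/
def HC (V : HS n) (W : HW w) (k : ℕ) : Submodule ℚ ((Fin k → Fin n ⊕ Fin w) → ℚ) where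
  carrier := {t | IsHodge V W t}
  zero_mem' := by
    intro J
    simp
  add_mem' := by
    intro s t hs ht J
    have h1 := hs J
    have h2 := ht J
    simp only [Pi.add_apply, Rat.cast_add, mul_add, Finset.sum_add_distrib]
    rw [h1, h2, add_zero]
  smul_mem' := by
    intro u t ht J
    have h1 := ht J
    simp only [Pi.smul_apply, smul_eq_mul, Rat.cast_mul, mul_left_comm _ (u : ℂ),
      ← Finset.mul_sum]
    rw [h1, mul_zero]

/-- for `B = K` the condition of independence holds -/
theorem ind_iso {z : ℕ} {Z : HW z} {i : Matrix (Fin z) (Fin w) ℚ} {p : Matrix (Fin w) (Fin z) ℚ}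
    (hV : (V.x * V.x).trace = 2) (hS : V.Scalar) (h : Cliff V W Γ c) (hf : Fac W Z i p)
    (hip : i * p = 1) : Ind V Γ c i p (HC V Z) := by
  have cip : mr i * mr p = 1 := by rw [← mr_mul, hip, mr_one]
  have hm : ∀ a b : Matrix (Fin w) (Fin w) ℂ, up' i p a * up' i p b = up' i p (a * b) := by
    intro a b
    unfold up'
    calc mr i * a * mr p * (mr i * b * mr p) = mr i * a * (mr p * mr i) * b * mr p := by
          simp only [Matrix.mul_assoc]
      _ = mr i * (a * b) * mr p := by
          rw [hf.pi, Matrix.mul_one]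
          simp only [Matrix.mul_assoc]
  have hs : ∀ a b : Matrix (Fin w) (Fin w) ℂ, up' i p (a + b) = up' i p a + up' i p b := by
    intro a b
    unfold up'
    rw [Matrix.mul_add, Matrix.add_mul]
  have hsub : ∀ a b : Matrix (Fin w) (Fin w) ℂ, up' i p (a - b) = up' i p a - up' i p b := by
    intro a b
    unfold up'
    rw [Matrix.mul_sub, Matrix.sub_mul]
  have hsm : ∀ (u : ℂ) (a : Matrix (Fin w) (Fin w) ℂ), up' i p (u • a) = u • up' i p a := by
    intro u a
    unfold up'
    rw [Matrix.mul_smul, Matrix.smul_mul]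
  intro x hx
  let L : Submodule ℂ (Matrix (Fin n) (Fin n) ℂ) :=
    { carrier := {x | x ∈ g0 V ∧ fromBlocks x 0 0 (up' i p (sp V Γ c x)) ∈ LA (HC V Z)}
      zero_mem' := by
        refine ⟨fun L _ _ => L.zero_mem, ?_⟩
        have e1 : sp V Γ c 0 = 0 := map_zero (spL V Γ c)
        have e2 : up' i p (0 : Matrix (Fin w) (Fin w) ℂ) = 0 := by unfold up'; simp
        rw [e1, e2, fromBlocks_zero]
        exact (LA (HC V Z)).zero_mem
      add_mem' := by
        rintro a b ⟨ha, ha'⟩ ⟨hb, hb'⟩
        refine ⟨g0_add V ha hb, ?_⟩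
        have e1 := (LA (HC V Z)).add_mem ha' hb'
        rw [fromBlocks_add, ← hs, add_zero, add_zero, ← sp_add'] at e1
        exact e1
      smul_mem' := by
        rintro t a ⟨ha, ha'⟩
        refine ⟨g0_smul V t ha, ?_⟩
        have e1 := (LA (HC V Z)).smul_mem t ha'
        rw [fromBlocks_smul, ← hsm, smul_zero, smul_zero, ← sp_smul'] at e1
        exact e1 }
  refine (skew_g0 hV hS hx L ?_ ?_).2
  · rintro a ⟨ha, ha'⟩ b ⟨hb, hb'⟩
    refine ⟨g0_br V ha hb, ?_⟩
    have e1 := LA_br _ ha' _ hb'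
    have e2 : sp V Γ c (a * b - b * a) = sp V Γ c a * sp V Γ c b - sp V Γ c b * sp V Γ c a :=
      h.brk ha
    rw [e2, hsub, ← hm, ← hm]
    have e3 : fromBlocks a 0 0 (up' i p (sp V Γ c a)) * fromBlocks b 0 0 (up' i p (sp V Γ c b)) -
        fromBlocks b 0 0 (up' i p (sp V Γ c b)) * fromBlocks a 0 0 (up' i p (sp V Γ c a)) =
        fromBlocks (a * b - b * a) 0 0 (up' i p (sp V Γ c a) * up' i p (sp V Γ c b) -
          up' i p (sp V Γ c b) * up' i p (sp V Γ c a)) := by
      rw [fromBlocks_multiply, fromBlocks_multiply, sub_eq_add_neg (fromBlocks _ _ _ _),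
        fromBlocks_neg, fromBlocks_add]
      simp [sub_eq_add_neg]
    rwa [e3] at e1
  · intro σ
    refine ⟨x_mem V σ, ?_⟩
    have e1 : sp V Γ c (V.x.map σ) = W.y.map σ := (h.y σ).symm
    have e2 : up' i p (W.y.map σ) = Z.y.map σ := by
      have e3 : mr i * W.y.map σ = Z.y.map σ * mr i := by
        have := congrArg (fun M => M.map σ) hf.hodge
        simp only [map_mul', mr_map] at this
        exact this
      unfold up'
      rw [e3, Matrix.mul_assoc, cip, Matrix.mul_one]
    rw [e1, e2]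
    have e4 : fromBlocks (V.x.map σ) 0 0 (Z.y.map σ) = (Xop V Z).map σ := by rw [Xop_map]
    rw [e4]
    intro k t ht
    exact der_cx_conj σ _ t (der_cx.1 ht)

/-- for `B = K` the condition of independence holds -/
theorem ind_self (hV : (V.x * V.x).trace = 2) (hS : V.Scalar) (h : Cliff V W Γ c)
    {x : Matrix (Fin n) (Fin n) ℂ} (hx : xᵀ * mC V.Q + mC V.Q * x = 0)
    {t : (Fin k → Fin n ⊕ Fin w) → ℚ} (ht : IsHodge V W t) :
    der (fromBlocks x 0 0 (sp V Γ c x)) (cx t) = 0 := by
  have h1 := dz_LA (A := HC V W) h (fun k t ht => ht) x (skew_g0 hV hS hx)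
  exact h1 k t ht

end

end

end Pool.Agent.Y89.TX
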