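import Pool.Agent.Y89.TU.Stm

/-!
# Project TX (products with an arbitrary abelian variety, every rank): parts

`Clf`, `mono`, `InD`, `act` are defined in `TS/Stm`, `TS/Stm2`; `der` in `KS/Defs`. The monomials
satisfy `S_mono` (proved: `Pool.Agent.Y259.TS.t_mono`), an operator commuting with all `InD` is a
combination of even monomials (`S_comm`, proved: `Pool.Agent.Y165.TS.t_comm`).
-/

open Matrix Finset

namespace Pool.Agent.Y89.TX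

noncomputable section

open Pool.Agent.Y89.KS (der)
open Pool.Agent.Y89.TS (Clf InD mono act)

/-- the products of two generators -/
def prs {N : Type} [Fintype N] [DecidableEq N] {n : ℕ} (Γ : Fin n → Matrix N N ℂ) :
    Set (Matrix N N ℂ) := {z | ∃ i j, i ≠ j ∧ z = Γ i * Γ j}

/-- (IDEALE) subspaces of skew operators normalised by the spin Lie algebra, even rank -/
def S_ideale : Prop := ∀ (N : Type) [Fintype N] [DecidableEq N] (n : ℕ)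
  (Γ : Fin n → Matrix N N ℂ), Clf Γ → Even n → 4 ≤ n →
  ∀ τ : Matrix N N ℂ →ₗ[ℂ] Matrix N N ℂ, (∀ a b, τ (a * b) = τ b * τ a) →
  (∀ i j, i ≠ j → τ (Γ i * Γ j) = -(Γ i * Γ j)) →
  ∀ K : Submodule ℂ (Matrix N N ℂ), (∀ a ∈ K, ∀ b ∈ K, a * b - b * a ∈ K) →
  (∀ i j, i ≠ j → ∀ a ∈ K, Γ i * Γ j * a - a * (Γ i * Γ j) ∈ K) →
  (∀ a ∈ K, τ a = -a) → (∀ a ∈ K, ∀ d, InD Γ d → a * d = d * a) →
  (∀ a ∈ K, ∃ c : ℂ, a = c • mono Γ univ) ∨ (∀ i j, i ≠ j → Γ i * Γ j ∈ K) ∨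
    (n % 4 = 0 ∧ ∃ κ : ℂ, κ * κ = 1 ∧
      ∀ i j, i ≠ j → Γ i * Γ j + κ • (mono Γ univ * (Γ i * Γ j)) ∈ K)

/-- (NORME) operators normalising the spin representation, even rank -/
def S_norme : Prop := ∀ (N : Type) [Fintype N] [DecidableEq N] (n : ℕ)
  (Γ : Fin n → Matrix N N ℂ), Clf Γ → Even n → 4 ≤ n → ∀ g g' : Matrix N N ℂ,
  g * g' = 1 → g' * g = 1 → (∀ d, InD Γ d → g * d = d * g) →
  (∀ i j, i ≠ j → g * (Γ i * Γ j) * g' ∈ Submodule.span ℂ (prs Γ)) →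
  ∃ (r : Matrix (Fin n) (Fin n) ℂ) (α β : ℂ), r * rᵀ = 1 ∧
    (α • 1 + β • mono Γ univ) * (α • 1 - β • mono Γ univ) = 1 ∧
    ∀ i, g * Γ i * g' = (∑ j, r j i • Γ j) * (α • 1 + β • mono Γ univ)

/-- (NORM0) in rank divisible by four the second factor is a scalar for isometries -/
def S_norm0 : Prop := ∀ (N : Type) [Fintype N] [DecidableEq N] (n : ℕ)
  (Γ : Fin n → Matrix N N ℂ), Clf Γ → n % 4 = 0 → 4 ≤ n → ∀ g g' : Matrix N N ℂ,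
  g * g' = 1 → g' * g = 1 → (∀ d, InD Γ d → g * d = d * g) →
  ∀ τ : Matrix N N ℂ →ₗ[ℂ] Matrix N N ℂ, (∀ a b, τ (a * b) = τ b * τ a) →
  (∀ i j, i ≠ j → τ (Γ i * Γ j) = -(Γ i * Γ j)) → τ g = g' →
  ∀ (r : Matrix (Fin n) (Fin n) ℂ) (α β : ℂ), r * rᵀ = 1 →
    (∀ i, g * Γ i * g' = (∑ j, r j i • Γ j) * (α • 1 + β • mono Γ univ)) →
    β • mono Γ univ = 0

/-- (WEIL3) -/
def S_weil3 : Prop := ∀ (ι : Type) [Fintype ι] [DecidableEq ι] (X Y : Matrix ι ι ℂ),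
  X * Y = 0 → Y * X = 0 → X * X * X = X → (4 : ℂ) • (Y * Y * Y) = Y →
  ∀ (k : ℕ) (f : (Fin k → ι) → ℂ), der (X + Y) f = 0 →
  act (1 - (2 : ℂ) • (X * X) - (4 : ℂ) • (Y * Y) + (2 * Complex.I) • Y)ᵀ f = f

/-- (PAR) the parity argument in rank divisible by four -/
def S_par : Prop := ∀ (N : Type) [Fintype N] [DecidableEq N] (n : ℕ)
  (Γ : Fin n → Matrix N N ℂ), Clf Γ → n % 4 = 0 → 4 ≤ n →
  ∀ (ι : Type) [Fintype ι] [DecidableEq ι] (u : Matrix ι N ℂ) (v : Matrix N ι ℂ)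
    (j : Matrix ι (Fin n) ℂ) (q : Matrix (Fin n) ι ℂ),
  v * u = 1 → q * j = 1 → v * j = 0 → q * u = 0 → ∀ κ : ℂ, κ * κ = 1 →
  ∀ (k : ℕ) (f : (Fin k → ι) → ℂ),
  (∀ a b, a ≠ b →
    der (u * (Γ a * Γ b + κ • (mono Γ univ * (Γ a * Γ b))) * v) f = 0) →
  (∀ a b, a ≠ b →
    der (j * (Matrix.single a b (1 : ℂ) - Matrix.single b a (1 : ℂ)) * q +
      (1 / 2 : ℂ) • (u * (Γ a * Γ b) * v)) f = 0) →
  act (1 - (2 : ℂ) • (j * q))ᵀ f = f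

/-- (ROT) -/
def S_rot : Prop := ∀ (ι : Type) [Fintype ι] [DecidableEq ι] (P Y : Matrix ι ι ℂ),
  P * P = P → P * Y = Y → Y * P = Y → Y * Y = -P →
  ∀ (k : ℕ) (f : (Fin k → ι) → ℂ), der Y f = 0 → ∀ α β : ℂ, α * α + β * β = 1 →
  act (1 - P + α • P + β • Y)ᵀ f = f

end

end Pool.Agent.Y89.TX
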