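import Pool.Agent.Y89.TX.Sym
import Pool.Agent.Y998.TS.MAX

/-!
# The operators acting on `W` only commute with the spin Lie algebra
-/

open Matrix Finset Function

set_option linter.unusedSectionVars false

namespace Pool.Agent.Y89.TX

noncomputable section

open Pool.Agent.W544.PG (HS HW mC cspan cx)
open Pool.Agent.Y89.KS
open Pool.Agent.Y89.TS
open Pool.Agent.Y89.TU hiding KA mem_KA Linked
open Pool.Agent.Y761.TS (act_act act_one actL)

section
variable {n w z k : ℕ} {V : HS n} {W : HW w} {Z : HW z} {Γ : Fin n → Matrix (Fin w) (Fin w) ℚ}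
  {c : ℚ} {i : Matrix (Fin z) (Fin w) ℚ} {p : Matrix (Fin w) (Fin z) ℚ}
  {A : ∀ k : ℕ, Submodule ℚ ((Fin k → Fin n ⊕ Fin z) → ℚ)} {U U' : Matrix (Fin n) (Fin n) ℂ}

theorem U'_eq (hU : Uᵀ * ((c : ℂ) • mC V.Q) * U = 1) (hUU : U * U' = 1) :
    U' = Uᵀ * ((c : ℂ) • mC V.Q) := by
  calc U' = (Uᵀ * ((c : ℂ) • mC V.Q) * U) * U' := by rw [hU, Matrix.one_mul]
    _ = Uᵀ * ((c : ℂ) • mC V.Q) * (U * U') := by simp only [Matrix.mul_assoc]
    _ = _ := by rw [hUU, Matrix.mul_one]

theorem U_single (hU : Uᵀ * ((c : ℂ) • mC V.Q) * U = 1) (hUU : U * U' = 1) (a b : Fin n) :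
    U * (Matrix.single a b (1 : ℂ) - Matrix.single b a (1 : ℂ)) * U' =
      (c : ℂ) • wdg (mC V.Q) (U.col a) (U.col b) := by
  have hQs : ∀ a b, mC V.Q a b = mC V.Q b a := fun a b => congrFun (congrFun (Qt V) b) a
  have h1 : ∀ a b : Fin n, U * Matrix.single a b (1 : ℂ) * U' =
      (c : ℂ) • Matrix.vecMulVec (U.col a) (mC V.Q *ᵥ U.col b) := by
    intro a b
    ext r s
    rw [Matrix.mul_apply]
    have h2 : ∀ t, (U * Matrix.single a b (1 : ℂ)) r t = if b = t then U r a else 0 := by
      intro t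
      rw [Matrix.mul_apply]
      simp only [Matrix.single_apply, mul_ite, mul_one, mul_zero]
      by_cases hbt : b = t
      · subst hbt
        simp
      · simp [hbt]
    simp only [h2, ite_mul, zero_mul, Finset.sum_ite_eq, Finset.mem_univ, if_true]
    rw [U'_eq hU hUU, Matrix.smul_apply, Matrix.vecMulVec_apply, Matrix.mul_apply,
      Matrix.col_apply, Matrix.mulVec, dotProduct, smul_eq_mul]
    simp only [Matrix.smul_apply, Matrix.transpose_apply, smul_eq_mul, Matrix.col_apply,
      Finset.mul_sum]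
    refine Finset.sum_congr rfl fun t _ => ?_
    rw [hQs t s]
    ring
  rw [Matrix.mul_sub, Matrix.sub_mul, h1, h1, ← smul_sub]
  rfl

theorem cx_ne {m : ℕ} {ι : Type} {f : (Fin m → ι) → ℚ} {J : Fin m → ι} (h : cx f J ≠ 0) :
    f J ≠ 0 := by
  intro h1
  apply h
  simp [cx, h1]

theorem KA_cen (hideal : S_ideal) (hideale : S_ideale) (hpar : S_par)
    (hmono : Pool.Agent.Y89.TS.S_mono)
    (hV : (V.x * V.x).trace = 2) (hS : V.Scalar) (h : Cliff V W Γ c)
    (hf : Fac W Z i p) (hA : Cycles V Z A) (hI : Ind V Γ c i p A) (hl : Linked V A)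
    (hU : Uᵀ * ((c : ℂ) • mC V.Q) * U = 1) (hUU : U * U' = 1) (hU'U : U' * U = 1) (hn : 3 ≤ n) :
    ∀ e ∈ KA A i p, ∀ j l, j ≠ l → e * (ga Γ U j * ga Γ U l) = ga Γ U j * ga Γ U l * e := by
  have hγ := ga_clf h hU
  rcases Nat.even_or_odd n with hn2 | hn2
  · have hn4 : 4 ≤ n := by
      obtain ⟨m, hm⟩ := hn2
      omega
    rcases hideale (Fin w) n (ga Γ U) hγ hn2 hn4 (dgL W) (dg_mul W)
      (fun j l hjl => ga_dg hV hS h hU hjl) (KA A i p) (KA_br hf)
      (fun j l hjl a ha => KA_nor' hV hS h hf hI hU j l hjl a ha)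
      (fun a ha => dg_of_skew W (KA_skew hf hA ha))
      (fun a ha d hd => KA_comm hf hA ha (inD_DD h hU hUU hd)) with h1 | h1 | ⟨h0, κ, hκ, h1⟩
    · intro e he j l hjl
      obtain ⟨t, rfl⟩ := h1 e he
      have hM := Pool.Agent.Y998.TS.Mon.pair (Γ := ga Γ U)
        ⟨hγ.sq, (hmono (Fin w) n _ hγ).1, (hmono (Fin w) n _ hγ).2.1,
          (hmono (Fin w) n _ hγ).2.2.1, (hmono (Fin w) n _ hγ).2.2.2⟩ hjl
      have h2 := (hmono (Fin w) n _ hγ).2.2.2 univ {j, l}
      rw [Finset.card_univ, Fintype.card_fin, Finset.card_pair hjl, Finset.univ_inter,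
        Finset.card_pair hjl, Even.neg_one_pow ⟨n + 1, by ring⟩, one_smul] at h2
      rw [Matrix.smul_mul, Matrix.mul_smul]
      congr 1
      rcases hM with h3 | h3
      · rw [h3, h2]
      · rw [h3, Matrix.mul_neg, Matrix.neg_mul, h2]
    · exact (not_all hI h hl hU hUU h1).elim
    · exfalso
      obtain ⟨m, f, x, hfA, hodd, hx, hne⟩ := hl
      have hp := hpar (Fin w) n (ga Γ U) hγ h0 hn4 (Fin n ⊕ Fin z)
        (Matrix.fromRows 0 (mr i)) (Matrix.fromCols 0 (mr p)) (Matrix.fromRows U 0)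
        (Matrix.fromCols U' 0)
        (by rw [Matrix.fromCols_mul_fromRows, Matrix.zero_mul, zero_add, hf.pi])
        (by rw [Matrix.fromCols_mul_fromRows, Matrix.zero_mul, add_zero, hU'U])
        (by rw [Matrix.fromCols_mul_fromRows, Matrix.zero_mul, Matrix.mul_zero, add_zero])
        (by rw [Matrix.fromCols_mul_fromRows, Matrix.zero_mul, Matrix.mul_zero, add_zero])
        κ hκ m (cx f) (fun a b hab => ?_) (fun a b hab => ?_)
      · have e1 : (1 : Matrix (Fin n ⊕ Fin z) (Fin n ⊕ Fin z) ℂ) -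
            (2 : ℂ) • (Matrix.fromRows U 0 * Matrix.fromCols U' 0) =
            fromBlocks ((-1 : ℂ) • (1 : Matrix (Fin n) (Fin n) ℂ)) 0 0 1 := by
          rw [Matrix.fromRows_mul_fromCols, hUU, Matrix.mul_zero, Matrix.zero_mul,
            Matrix.mul_zero, fromBlocks_smul, ← fromBlocks_one, sub_eq_add_neg, fromBlocks_neg,
            fromBlocks_add]
          congr 1
          · rw [← sub_eq_add_neg, neg_smul, one_smul, two_smul]
            abel
          · simp
          · simp
          · simp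
        rw [e1, act_sgn (-1) (-1) 1 1 (cx f) (fun J hJ => (hodd h0 J (cx_ne hJ)).neg_one_pow),
          fromBlocks_one, Matrix.transpose_one, act_one] at hp
        apply hne
        have h3 : cx f = 0 := by
          have h4 : (2 : ℂ) • cx f = 0 := by
            rw [two_smul]
            nth_rewrite 1 [← hp]
            rw [neg_one_smul, neg_add_cancel]
          exact (smul_eq_zero.1 h4).resolve_left two_ne_zero
        rw [h3]
        exact map_zero (derL m _)
      · have e1 := h1 a b hab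
        rw [mem_KA] at e1
        have e2 : Matrix.fromRows (0 : Matrix (Fin n) (Fin w) ℂ) (mr i) *
            (ga Γ U a * ga Γ U b + κ • (mono (ga Γ U) univ * (ga Γ U a * ga Γ U b))) *
            Matrix.fromCols (0 : Matrix (Fin w) (Fin n) ℂ) (mr p) = fromBlocks 0 0 0
            (up' i p (ga Γ U a * ga Γ U b +
              κ • (mono (ga Γ U) univ * (ga Γ U a * ga Γ U b)))) := by
          rw [Matrix.fromRows_mul, Matrix.fromRows_mul_fromCols, Matrix.zero_mul,
            Matrix.zero_mul, Matrix.zero_mul, Matrix.mul_zero]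
        rw [e2]
        exact e1 m f hfA
      · have e1 := hI _ (wdg_skew V hV hS (U.col a) (U.col b))
        have e2 : Matrix.fromRows U (0 : Matrix (Fin z) (Fin n) ℂ) *
            (Matrix.single a b (1 : ℂ) - Matrix.single b a (1 : ℂ)) *
            Matrix.fromCols U' (0 : Matrix (Fin n) (Fin z) ℂ) + (1 / 2 : ℂ) •
            (Matrix.fromRows (0 : Matrix (Fin n) (Fin w) ℂ) (mr i) *
              (ga Γ U a * ga Γ U b) * Matrix.fromCols (0 : Matrix (Fin w) (Fin n) ℂ) (mr p)) =
            (c : ℂ) • fromBlocks (wdg (mC V.Q) (U.col a) (U.col b)) 0 0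
              (up' i p (sp V Γ c (wdg (mC V.Q) (U.col a) (U.col b)))) := by
          rw [Matrix.fromRows_mul, Matrix.fromRows_mul_fromCols, Matrix.fromRows_mul,
            Matrix.fromRows_mul_fromCols, U_single hU hUU, Matrix.zero_mul, Matrix.zero_mul,
            Matrix.zero_mul, Matrix.zero_mul, Matrix.mul_zero, Matrix.mul_zero, fromBlocks_smul,
            fromBlocks_smul, fromBlocks_add, sp_ga h hU hab]
          simp only [smul_zero, add_zero, zero_add, Matrix.zero_mul, Matrix.mul_zero]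
          congr 1
          unfold up'
          rw [Matrix.mul_smul, Matrix.smul_mul, smul_smul]
          congr 1
          ring
        rw [e2]
        exact (LA A).smul_mem _ e1 m f hfA
  · have h1 := hideal (Fin w) n (ga Γ U) hγ hn2 (KA A i p) (KA_br hf)
      (fun j l hjl a ha => KA_nor' hV hS h hf hI hU j l hjl a ha)
      (fun a ha d hd => KA_comm hf hA ha (inD_DD h hU hUU hd))
    rcases h1 with h1 | h1
    · intro e he j l _
      obtain ⟨t, rfl⟩ := h1 e he
      rw [Matrix.smul_mul, Matrix.mul_smul, Matrix.one_mul, Matrix.mul_one]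
    · exact (not_all hI h hl hU hUU h1).elim

end

end

end Pool.Agent.Y89.TX
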