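import Pool.Agent.Y89.TX.Cen
import Pool.Agent.Y814.TX.IDEALE

/-!
# The symmetries act through the spin group and its centre
-/

open Matrix Finset Function

set_option linter.unusedSectionVars false

namespace Pool.Agent.Y89.TX

noncomputable section

open Pool.Agent.W544.PG (HS HW mC cspan cx)
open Pool.Agent.Y89.KS
open Pool.Agent.Y89.TS
open Pool.Agent.Y89.TU hiding KA mem_KA Linked
open Pool.Agent.Y761.TS (act_act act_one actL)

section
variable {n w z k : ℕ} {V : HS n} {W : HW w} {Γ : Fin n → Matrix (Fin w) (Fin w) ℚ}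
  {c : ℚ} {U U' : Matrix (Fin n) (Fin n) ℂ}

/-- the volume element -/
abbrev vol (Γ : Fin n → Matrix (Fin w) (Fin w) ℚ) (U : Matrix (Fin n) (Fin n) ℂ) :
    Matrix (Fin w) (Fin w) ℂ := mono (ga Γ U) univ

theorem isMon {N : Type} [Fintype N] [DecidableEq N] {Γ : Fin n → Matrix N N ℂ} (hΓ : Clf Γ) :
    Pool.Agent.Y998.TS.Mon Γ := by
  obtain ⟨m1, m2, m3, m4⟩ := Pool.Agent.Y259.TS.t_mono N n Γ hΓ
  exact ⟨hΓ.sq, m1, m2, m3, m4⟩

/-- even rank: the volume element anticommutes with the generators -/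
theorem vol_anti (hn : Even n) {N : Type} [Fintype N] [DecidableEq N] {Γ : Fin n → Matrix N N ℂ}
    (hΓ : Clf Γ) (j : Fin n) : Γ j * mono Γ univ = -(mono Γ univ * Γ j) := by
  have hM := isMon hΓ
  have h1 := hM.ac (s := univ) (t := {j}) (by rw [Finset.card_univ, Fintype.card_fin]; exact hn)
    (by simp)
  rw [hM.one] at h1
  rw [h1, neg_neg]

theorem vol_comm (hn : Even n) {N : Type} [Fintype N] [DecidableEq N] {Γ : Fin n → Matrix N N ℂ}
    (hΓ : Clf Γ) (j l : Fin n) : mono Γ univ * (Γ j * Γ l) = Γ j * Γ l * mono Γ univ := by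
  have h1 := vol_anti hn hΓ j
  have h2 := vol_anti hn hΓ l
  have h3 : mono Γ univ * Γ j = -(Γ j * mono Γ univ) := by rw [h1, neg_neg]
  have h4 : mono Γ univ * Γ l = -(Γ l * mono Γ univ) := by rw [h2, neg_neg]
  rw [← Matrix.mul_assoc, h3, Matrix.neg_mul, Matrix.mul_assoc, h4, Matrix.mul_neg, neg_neg,
    Matrix.mul_assoc]

theorem gm_vol (hn : Even n) (h : Cliff V W Γ c) (hU : Uᵀ * ((c : ℂ) • mC V.Q) * U = 1)
    (hUU : U * U' = 1) (v : Fin n → ℂ) : gm Γ v * vol Γ U = -(vol Γ U * gm Γ v) := by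
  have h1 : v = U *ᵥ (U' *ᵥ v) := by rw [Matrix.mulVec_mulVec, hUU, Matrix.one_mulVec]
  rw [h1, gm_U, Finset.sum_mul, Finset.mul_sum, ← Finset.sum_neg_distrib]
  refine Finset.sum_congr rfl fun j _ => ?_
  rw [Matrix.smul_mul, Matrix.mul_smul, vol_anti hn (ga_clf h hU) j, smul_neg]

theorem sp_vol (hn : Even n) (h : Cliff V W Γ c) (hU : Uᵀ * ((c : ℂ) • mC V.Q) * U = 1)
    (hUU : U * U' = 1) {x : Matrix (Fin n) (Fin n) ℂ} (hx : xᵀ * mC V.Q + mC V.Q * x = 0) :
    vol Γ U * sp V Γ c x = sp V Γ c x * vol Γ U := by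
  have h1 := sp_span h hU hUU hx
  generalize sp V Γ c x = s at h1
  induction h1 using Submodule.span_induction with
  | mem s hs =>
    obtain ⟨j, l, hjl, rfl⟩ := hs
    exact vol_comm hn (ga_clf h hU) j l
  | zero => rw [Matrix.mul_zero, Matrix.zero_mul]
  | add s t _ _ hs ht => rw [Matrix.mul_add, Matrix.add_mul, hs, ht]
  | smul r s _ hs => rw [Matrix.mul_smul, Matrix.smul_mul, hs]

theorem vol_inD (hn : Even n) (h : Cliff V W Γ c) (hU : Uᵀ * ((c : ℂ) • mC V.Q) * U = 1) :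
    InD (ga Γ U) (vol Γ U) := fun j l => vol_comm hn (ga_clf h hU) j l

theorem vol_dg (hn : Even n) (h4 : 4 ≤ n) (hV : (V.x * V.x).trace = 2) (hS : V.Scalar)
    (h : Cliff V W Γ c) (hU : Uᵀ * ((c : ℂ) • mC V.Q) * U = 1) :
    dg W (vol Γ U) = ((-1 : ℂ) ^ (n / 2)) • vol Γ U ∧
      vol Γ U * vol Γ U = ((-1 : ℂ) ^ (n / 2)) • (1 : Matrix (Fin w) (Fin w) ℂ) := by
  have hM := isMon (ga_clf h hU)
  have hc : (univ : Finset (Fin n)).card = 2 * (n / 2) := by
    rw [Finset.card_univ, Fintype.card_fin]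
    obtain ⟨m, rfl⟩ := hn
    omega
  refine ⟨?_, Pool.Agent.Y814.TX.mono_sq_even hM (n / 2) univ hc⟩
  exact Pool.Agent.Y998.TS.tau_mono hM (by omega) (τ := dgL W) (dg_mul W)
    (fun j l hjl => ga_dg hV hS h hU hjl) (n / 2) univ hc

/-- a matrix commuting with the endomorphisms of `W` commutes with the volume element -/
theorem Res.vol (hn : Even n) (h : Cliff V W Γ c) (hU : Uᵀ * ((c : ℂ) • mC V.Q) * U = 1)
    (hUU : U * U' = 1) {a a' : Matrix (Fin n) (Fin n) ℂ} {d d' : Matrix (Fin w) (Fin w) ℂ}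
    (hr : Res V W a a' d d') : d * vol Γ U = vol Γ U * d :=
  hr.cm _ (inD_DD h hU hUU (vol_inD hn h hU))

/-- the spin conjugation extends to the generators, up to an element of the centre -/
theorem norm_all (hnorm : S_norm) (hnorme : S_norme) (hnorm0 : S_norm0)
    (hV : (V.x * V.x).trace = 2) (hS : V.Scalar) (h : Cliff V W Γ c)
    (hU : Uᵀ * ((c : ℂ) • mC V.Q) * U = 1) (hUU : U * U' = 1) (hn : 3 ≤ n)
    {a a' : Matrix (Fin n) (Fin n) ℂ} {d d' : Matrix (Fin w) (Fin w) ℂ}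
    (hr : Res V W a a' d d')
    (hc : ∀ x : Matrix (Fin n) (Fin n) ℂ, xᵀ * mC V.Q + mC V.Q * x = 0 →
      d * sp V Γ c x * d' = sp V Γ c (a * x * a')) :
    ∃ (ρ : Matrix (Fin n) (Fin n) ℂ) (α β : ℂ), (n % 4 ≠ 2 → α = 1 ∧ β = 0) ∧
      α * α + β * β = 1 ∧
      ∀ v, d * gm Γ v * d' = gm Γ (ρ *ᵥ v) * (α • 1 + β • vol Γ U) := by
  have hγ := ga_clf h hU
  have hdD : ∀ e : Matrix (Fin w) (Fin w) ℂ, InD (ga Γ U) e → d * e = e * d :=
    fun e he => hr.cm e (inD_DD h hU hUU he)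
  have hpr : ∀ j l, j ≠ l → d * (ga Γ U j * ga Γ U l) * d' ∈
      Submodule.span ℂ {z | ∃ i j, i ≠ j ∧ z = ga Γ U i * ga Γ U j} := by
    intro j l hjl
    have hwd := wdg_skew V hV hS (U.col j) (U.col l)
    rw [sp_ga h hU hjl, Matrix.mul_smul, Matrix.smul_mul, hc _ hwd]
    exact Submodule.smul_mem _ _ (sp_span h hU hUU (hr.skew hwd))
  -- from an orthonormal basis to all vectors
  have key : ∀ (r : Matrix (Fin n) (Fin n) ℂ) (C : Matrix (Fin w) (Fin w) ℂ),
      (∀ j, d * ga Γ U j * d' = (∑ l, r l j • ga Γ U l) * C) →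
      ∀ v, d * gm Γ v * d' = gm Γ ((U * r * U') *ᵥ v) * C := by
    intro r C hrC v
    have h1 : v = U *ᵥ (U' *ᵥ v) := by rw [Matrix.mulVec_mulVec, hUU, Matrix.one_mulVec]
    conv_lhs => rw [h1, gm_U]
    rw [Finset.mul_sum, Finset.sum_mul]
    have h2 : ∀ j, d * ((U' *ᵥ v) j • ga Γ U j) * d' =
        (∑ l, ((U' *ᵥ v) j * r l j) • ga Γ U l) * C := by
      intro j
      rw [Matrix.mul_smul, Matrix.smul_mul, hrC, ← Matrix.smul_mul, Finset.smul_sum]
      simp only [smul_smul]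
    simp only [h2]
    rw [← Finset.sum_mul]
    congr 1
    rw [Finset.sum_comm]
    have h3 : (U * r * U') *ᵥ v = U *ᵥ (r *ᵥ (U' *ᵥ v)) := by
      rw [Matrix.mulVec_mulVec, Matrix.mulVec_mulVec, Matrix.mul_assoc]
    rw [h3, gm_U]
    refine Finset.sum_congr rfl fun j _ => ?_
    rw [← Finset.sum_smul]
    congr 1
    rw [Matrix.mulVec, dotProduct]
    exact Finset.sum_congr rfl fun i _ => mul_comm _ _
  rcases Nat.even_or_odd n with hn2 | hn2
  · have hn4 : 4 ≤ n := by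
      obtain ⟨m, hm⟩ := hn2
      omega
    obtain ⟨r, α, β, hrr, hαβ, hg⟩ := hnorme (Fin w) n (ga Γ U) hγ hn2 hn4 d d' hr.d1 hr.d2
      hdD hpr
    obtain ⟨hv1, hv2⟩ := vol_dg hn2 hn4 hV hS h hU
    have h1 : (1 : Matrix (Fin w) (Fin w) ℂ) ≠ 0 := by
      intro h0
      have h3 := congrFun (congrFun h0 ⟨0, h.pos⟩) ⟨0, h.pos⟩
      simp at h3
    have hαβ' : (α * α - (-1 : ℂ) ^ (n / 2) * (β * β)) • (1 : Matrix (Fin w) (Fin w) ℂ) = 1 := by
      have h5 : (α • (1 : Matrix (Fin w) (Fin w) ℂ) + β • vol Γ U) * (α • 1 - β • vol Γ U) =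
          (α * α) • (1 : Matrix (Fin w) (Fin w) ℂ) - (β * β) • (vol Γ U * vol Γ U) := by
        simp only [add_mul, mul_sub, Matrix.smul_mul, Matrix.mul_smul, one_mul, mul_one, smul_smul]
        rw [mul_comm β α]
        abel
      rw [h5, hv2, smul_smul, ← sub_smul] at hαβ
      rw [← hαβ]
      congr 1
      ring
    have hαβ'' : α * α - (-1 : ℂ) ^ (n / 2) * (β * β) = 1 := by
      have h6 := hαβ'
      nth_rewrite 2 [← one_smul ℂ (1 : Matrix (Fin w) (Fin w) ℂ)] at h6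
      have h7 := sub_eq_zero.2 h6
      rw [← sub_smul] at h7
      exact sub_eq_zero.1 ((smul_eq_zero.1 h7).resolve_right h1)
    by_cases h2 : n % 4 = 2
    · refine ⟨U * r * U', α, β, fun h => absurd h2 h, ?_, key r _ hg⟩
      have h8 : Odd (n / 2) := by
        rw [Nat.odd_iff]
        omega
      rw [h8.neg_one_pow] at hαβ''
      linear_combination hαβ''
    · have h0 : n % 4 = 0 := by
        obtain ⟨m, hm⟩ := hn2
        omega
      have hdd : dgL W d = d' := by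
        change (mC W.E)⁻¹ * dᵀ * mC W.E = d'
        rw [Matrix.mul_assoc, hr.dE, ← Matrix.mul_assoc, Einv', Matrix.one_mul]
      have h9 := hnorm0 (Fin w) n (ga Γ U) hγ h0 hn4 d d' hr.d1 hr.d2 hdD (dgL W) (dg_mul W)
        (fun j l hjl => ga_dg hV hS h hU hjl) hdd r α β hrr hg
      have hβ : β = 0 := by
        rcases smul_eq_zero.1 h9 with h10 | h10
        · exact h10
        · exfalso
          have h11 : vol Γ U * vol Γ U = 0 := by
            change mono (ga Γ U) univ * mono (ga Γ U) univ = 0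
            rw [h10, Matrix.mul_zero]
          rw [hv2] at h11
          exact (smul_eq_zero.1 h11).elim (fun h12 => pow_ne_zero _ (by norm_num) h12) h1
      rw [hβ, mul_zero, mul_zero, sub_zero] at hαβ''
      refine ⟨α • (U * r * U'), 1, 0, fun _ => ⟨rfl, rfl⟩, by ring, fun v => ?_⟩
      rw [key r _ hg v, hβ, zero_smul, add_zero, add_zero, one_smul, Matrix.mul_one,
        Matrix.mul_smul, Matrix.mul_one, Matrix.smul_mulVec, map_smul]
  · obtain ⟨r, hg⟩ := hnorm (Fin w) n (ga Γ U) hγ hn2 d d' hr.d1 hr.d2 hdD hpr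
    have h4 : n % 4 ≠ 2 := by
      obtain ⟨m, hm⟩ := hn2
      omega
    refine ⟨U * r * U', 1, 0, fun _ => ⟨rfl, rfl⟩, by ring, fun v => ?_⟩
    rw [one_smul, zero_smul, add_zero]
    exact key r 1 (fun j => by rw [hg j, Matrix.mul_one]) v

/-- the conjugation of the generators is given by the action on `V`, up to sign and centre -/
theorem norm_eps (hnorm : S_norm) (hnorme : S_norme) (hnorm0 : S_norm0)
    (hV : (V.x * V.x).trace = 2) (hS : V.Scalar) (h : Cliff V W Γ c)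
    (hU : Uᵀ * ((c : ℂ) • mC V.Q) * U = 1) (hUU : U * U' = 1) (hn : 3 ≤ n)
    {a a' : Matrix (Fin n) (Fin n) ℂ} {d d' : Matrix (Fin w) (Fin w) ℂ}
    (hr : Res V W a a' d d')
    (hc : ∀ x : Matrix (Fin n) (Fin n) ℂ, xᵀ * mC V.Q + mC V.Q * x = 0 →
      d * sp V Γ c x * d' = sp V Γ c (a * x * a')) :
    ∃ ε α β : ℂ, ε * ε = 1 ∧ (n % 4 ≠ 2 → α = 1 ∧ β = 0) ∧ α * α + β * β = 1 ∧
      ∀ v, d * gm Γ v * d' = (ε • gm Γ (a *ᵥ v)) * (α • 1 + β • vol Γ U) := by
  obtain ⟨ρ, α, β, h2, hαβ, hρ⟩ := norm_all hnorm hnorme hnorm0 hV hS h hU hUU hn hr hc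
  set C : Matrix (Fin w) (Fin w) ℂ := α • 1 + β • vol Γ U with hC
  set Cb : Matrix (Fin w) (Fin w) ℂ := α • 1 - β • vol Γ U with hCb
  -- rules for the central element
  have hrule : C * Cb = 1 ∧ (∀ v, gm Γ v * C = Cb * gm Γ v) ∧
      ∀ x : Matrix (Fin n) (Fin n) ℂ, xᵀ * mC V.Q + mC V.Q * x = 0 →
        C * sp V Γ c x = sp V Γ c x * C := by
    by_cases h4 : n % 4 = 2
    · have hn2 : Even n := by
        rw [Nat.even_iff]
        omega
      have hn4 : 4 ≤ n := by omega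
      obtain ⟨-, hv2⟩ := vol_dg hn2 hn4 hV hS h hU
      have h8 : Odd (n / 2) := by
        rw [Nat.odd_iff]
        omega
      rw [h8.neg_one_pow, neg_one_smul] at hv2
      refine ⟨?_, fun v => ?_, fun x hx => ?_⟩
      · have h5 : C * Cb = (α * α) • (1 : Matrix (Fin w) (Fin w) ℂ) -
            (β * β) • (vol Γ U * vol Γ U) := by
          rw [hC, hCb]
          simp only [add_mul, mul_sub, Matrix.smul_mul, Matrix.mul_smul, one_mul, mul_one,
            smul_smul]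
          rw [mul_comm β α]
          abel
        rw [h5, hv2, smul_neg, sub_neg_eq_add, ← add_smul, hαβ, one_smul]
      · rw [hC, hCb, Matrix.mul_add, Matrix.sub_mul, Matrix.mul_smul, Matrix.mul_smul,
          Matrix.smul_mul, Matrix.smul_mul, gm_vol hn2 h hU hUU, Matrix.mul_one, Matrix.one_mul,
          smul_neg, sub_eq_add_neg]
      · rw [hC, Matrix.add_mul, Matrix.mul_add, Matrix.smul_mul, Matrix.smul_mul, Matrix.mul_smul,
          Matrix.mul_smul, sp_vol hn2 h hU hUU hx, Matrix.mul_one, Matrix.one_mul]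
    · obtain ⟨h5, h6⟩ := h2 h4
      have e1 : C = 1 := by rw [hC, h5, h6, one_smul, zero_smul, add_zero]
      have e2 : Cb = 1 := by rw [hCb, h5, h6, one_smul, zero_smul, sub_zero]
      rw [e1, e2]
      exact ⟨Matrix.mul_one _, fun v => by rw [Matrix.mul_one, Matrix.one_mul],
        fun x _ => by rw [Matrix.mul_one, Matrix.one_mul]⟩
  obtain ⟨r1, r2, r3⟩ := hrule
  have hcomm : ∀ x : Matrix (Fin n) (Fin n) ℂ, xᵀ * mC V.Q + mC V.Q * x = 0 →
      ρ * x = a * x * a' * ρ := by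
    intro x hx
    have h1 : ∀ v, (ρ * x) *ᵥ v = (a * x * a' * ρ) *ᵥ v := by
      intro v
      have h2 := congrArg (fun Z => d * Z * d') (h.comm hx v)
      have h3 : d * (sp V Γ c x * gm Γ v - gm Γ v * sp V Γ c x) * d' =
          (d * sp V Γ c x * d') * (d * gm Γ v * d') -
            (d * gm Γ v * d') * (d * sp V Γ c x * d') := by
        have e1 : ∀ X Y : Matrix (Fin w) (Fin w) ℂ, d * X * d' * (d * Y * d') =
            d * (X * Y) * d' := by
          intro X Y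
          calc d * X * d' * (d * Y * d') = d * X * (d' * d) * Y * d' := by
                simp only [Matrix.mul_assoc]
            _ = d * (X * Y) * d' := by rw [hr.d2, Matrix.mul_one]; simp only [Matrix.mul_assoc]
        rw [e1, e1, ← Matrix.sub_mul, ← Matrix.mul_sub]
      change d * (sp V Γ c x * gm Γ v - gm Γ v * sp V Γ c x) * d' = d * gm Γ (x *ᵥ v) * d' at h2
      have e3 : ∀ S G : Matrix (Fin w) (Fin w) ℂ, C * S = S * C →
          S * (G * C) - G * C * S = (S * G - G * S) * C := by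
        intro S G hSG
        rw [Matrix.mul_assoc G C S, hSG, Matrix.sub_mul, Matrix.mul_assoc, Matrix.mul_assoc]
      rw [h3, hc x hx, hρ, hρ, e3 _ _ (r3 _ (hr.skew hx))] at h2
      have h4 := h.comm (hr.skew hx) (ρ *ᵥ v)
      change sp V Γ c (a * x * a') * gm Γ (ρ *ᵥ v) - gm Γ (ρ *ᵥ v) * sp V Γ c (a * x * a') =
        gm Γ ((a * x * a') *ᵥ (ρ *ᵥ v)) at h4
      rw [h4] at h2
      have e4 : ∀ X Y : Matrix (Fin w) (Fin w) ℂ, X * C = Y * C → X = Y := by
        intro X Y hXY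
        calc X = X * C * Cb := by rw [Matrix.mul_assoc, r1, Matrix.mul_one]
          _ = Y * C * Cb := by rw [hXY]
          _ = Y := by rw [Matrix.mul_assoc, r1, Matrix.mul_one]
      have h5 : gm Γ ((a * x * a') *ᵥ (ρ *ᵥ v) - ρ *ᵥ (x *ᵥ v)) = 0 := by
        rw [map_sub, e4 _ _ h2, sub_self]
      have h6 := sub_eq_zero.1 (gm_inj h h5)
      rw [← Matrix.mulVec_mulVec, ← h6, Matrix.mulVec_mulVec]
    ext i j
    have h2 := congrFun (h1 (Pi.single j 1)) i
    rwa [Matrix.mulVec_single_one, Matrix.mulVec_single_one] at h2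
  obtain ⟨ε, hε⟩ := scal_of_comm hS (P := a' * ρ) (fun σ => by
    have h1 := hcomm _ (xskew V σ)
    calc a' * ρ * V.x.map σ = a' * (ρ * V.x.map σ) := Matrix.mul_assoc _ _ _
      _ = a' * (a * V.x.map σ * a' * ρ) := by rw [h1]
      _ = (a' * a) * V.x.map σ * (a' * ρ) := by simp only [Matrix.mul_assoc]
      _ = V.x.map σ * (a' * ρ) := by rw [hr.a2, Matrix.one_mul])
  have hρε : ρ = ε • a := by
    calc ρ = a * (a' * ρ) := by rw [← Matrix.mul_assoc, hr.a1, Matrix.one_mul]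
      _ = ε • a := by rw [hε, Matrix.mul_smul, Matrix.mul_one]
  have hrel : ∀ v, d * gm Γ v * d' = (ε • gm Γ (a *ᵥ v)) * C := by
    intro v
    rw [hρ, hρε, Matrix.smul_mulVec, map_smul]
  refine ⟨ε, α, β, ?_, h2, hαβ, hrel⟩
  set i0 : Fin n := ⟨0, by omega⟩ with hi0
  have h1 := col_form (V := V) hU i0 i0
  rw [if_pos rfl] at h1
  have h2 : ∀ v, gm Γ v * gm Γ v = ((c : ℂ) * (v ⬝ᵥ mC V.Q *ᵥ v)) •
      (1 : Matrix (Fin w) (Fin w) ℂ) := by
    intro v
    have h3 := gam_rel h.relC v v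
    rw [← two_smul ℂ, smul_smul] at h3
    have h4 := congrArg (fun Z => (2 : ℂ)⁻¹ • Z) h3
    simp only [smul_smul] at h4
    rw [inv_mul_cancel₀ two_ne_zero, one_smul] at h4
    change gm Γ v * gm Γ v = _ at h4
    rw [h4]
    congr 1
    ring
  have h3 : d * (gm Γ (U.col i0) * gm Γ (U.col i0)) * d' =
      (d * gm Γ (U.col i0) * d') * (d * gm Γ (U.col i0) * d') := by
    calc d * (gm Γ (U.col i0) * gm Γ (U.col i0)) * d' =
        d * gm Γ (U.col i0) * 1 * gm Γ (U.col i0) * d' := by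
          rw [Matrix.mul_one]; simp only [Matrix.mul_assoc]
      _ = _ := by rw [← hr.d2]; simp only [Matrix.mul_assoc]
  have h4 : (a *ᵥ U.col i0) ⬝ᵥ mC V.Q *ᵥ (a *ᵥ U.col i0) =
      U.col i0 ⬝ᵥ mC V.Q *ᵥ U.col i0 := by
    calc (a *ᵥ U.col i0) ⬝ᵥ mC V.Q *ᵥ (a *ᵥ U.col i0)
        = U.col i0 ⬝ᵥ aᵀ *ᵥ (mC V.Q *ᵥ (a *ᵥ U.col i0)) := by
          rw [Matrix.dotProduct_mulVec (U.col i0), Matrix.vecMul_transpose]
      _ = U.col i0 ⬝ᵥ mC V.Q *ᵥ U.col i0 := by
          rw [Matrix.mulVec_mulVec, hr.aQ, Matrix.mulVec_mulVec, Matrix.mul_assoc, hr.a2,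
            Matrix.mul_one]
  have h5 : (ε • gm Γ (a *ᵥ U.col i0)) * C * ((ε • gm Γ (a *ᵥ U.col i0)) * C) =
      (ε * ε) • (1 : Matrix (Fin w) (Fin w) ℂ) := by
    have r1' : Cb * C = 1 := mul_eq_one_comm.1 r1
    calc (ε • gm Γ (a *ᵥ U.col i0)) * C * ((ε • gm Γ (a *ᵥ U.col i0)) * C)
        = (ε * ε) • (gm Γ (a *ᵥ U.col i0) * (C * gm Γ (a *ᵥ U.col i0)) * C) := by
          simp only [Matrix.smul_mul, Matrix.mul_smul, smul_smul, Matrix.mul_assoc]
      _ = (ε * ε) • (gm Γ (a *ᵥ U.col i0) * gm Γ (a *ᵥ U.col i0)) := by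
          congr 1
          have h6 : C * gm Γ (a *ᵥ U.col i0) * C = gm Γ (a *ᵥ U.col i0) := by
            have h7 : C * (gm Γ (a *ᵥ U.col i0) * C) = C * (Cb * gm Γ (a *ᵥ U.col i0)) := by
              rw [r2]
            rw [Matrix.mul_assoc, h7, ← Matrix.mul_assoc, r1, Matrix.one_mul]
          rw [Matrix.mul_assoc, h6]
      _ = (ε * ε) • (1 : Matrix (Fin w) (Fin w) ℂ) := by
          rw [h2, h4, h1, one_smul]
  rw [hrel, h5, h2, h1, one_smul, Matrix.mul_one, hr.d1] at h3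
  have h5 := congrFun (congrFun h3 ⟨0, h.pos⟩) ⟨0, h.pos⟩
  simp only [Matrix.one_apply_eq, Matrix.smul_apply, smul_eq_mul, mul_one] at h5
  exact h5.symm

end

end

end Pool.Agent.Y89.TX
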