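import Pool.Agent.Y89.TU.Lnk4
import Pool.Agent.Y89.TX.Stm

/-!
# An abelian variety as a factor of another one

`W` is `H^1` of an abelian variety `K` which is (up to isogeny) a factor of an abelian variety with
`H^1 = Z`.
-/

open Matrix Finset Function

set_option linter.unusedSectionVars false

namespace Pool.Agent.Y89.TX

noncomputable section

open Pool.Agent.W544.PG (HS HW mC cspan cx)
open Pool.Agent.Y89.KS
open Pool.Agent.Y89.TS
open Pool.Agent.Y89.TU hiding KA mem_KA Linked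
open Pool.Agent.Y761.TS (act_act act_one actL)

/-- a rational rectangular matrix as a complex matrix -/
def mr {a b : ℕ} (P : Matrix (Fin a) (Fin b) ℚ) : Matrix (Fin a) (Fin b) ℂ :=
  P.map (fun q : ℚ => (q : ℂ))

theorem mr_sq {a : ℕ} (P : Matrix (Fin a) (Fin a) ℚ) : mr P = mC P := rfl

theorem mr_mul {a b c : ℕ} (P : Matrix (Fin a) (Fin b) ℚ) (Q : Matrix (Fin b) (Fin c) ℚ) :
    mr (P * Q) = mr P * mr Q := by
  ext i j
  simp [mr, Matrix.mul_apply]

theorem mr_tr {a b : ℕ} (P : Matrix (Fin a) (Fin b) ℚ) : mr Pᵀ = (mr P)ᵀ := rfl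

theorem mr_one {a : ℕ} : mr (1 : Matrix (Fin a) (Fin a) ℚ) = 1 := by
  ext i j
  by_cases hij : i = j
  · subst hij; simp [mr]
  · simp [mr, hij]

theorem mr_map {a b : ℕ} (P : Matrix (Fin a) (Fin b) ℚ) (σ : ℂ ≃+* ℂ) : (mr P).map σ = mr P := by
  ext i j
  simp [mr]

theorem map_mul' {a b c : ℕ} (σ : ℂ ≃+* ℂ) (P : Matrix (Fin a) (Fin b) ℂ)
    (Q : Matrix (Fin b) (Fin c) ℂ) : (P * Q).map σ = P.map σ * Q.map σ :=
  Matrix.map_mul

/-- `W` is a direct summand of `Z` -/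
structure Fac {w z : ℕ} (W : HW w) (Z : HW z) (i : Matrix (Fin z) (Fin w) ℚ)
    (p : Matrix (Fin w) (Fin z) ℚ) : Prop where
  one : p * i = 1
  adj : iᵀ * Z.E = W.E * p
  hodge : mr i * W.y = Z.y * mr i

section
variable {n w z k : ℕ} {V : HS n} {W : HW w} {Z : HW z} {Γ : Fin n → Matrix (Fin w) (Fin w) ℚ}
  {c : ℚ} {i : Matrix (Fin z) (Fin w) ℚ} {p : Matrix (Fin w) (Fin z) ℚ}
  {A : ∀ k : ℕ, Submodule ℚ ((Fin k → Fin n ⊕ Fin z) → ℚ)} {U U' : Matrix (Fin n) (Fin n) ℂ}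

theorem Fac.pi (hf : Fac W Z i p) : mr p * mr i = 1 := by
  rw [← mr_mul, hf.one, mr_one]

theorem Fac.iE (hf : Fac W Z i p) : (mr i)ᵀ * mC Z.E = mC W.E * mr p := by
  rw [← mr_sq, ← mr_sq, ← mr_tr, ← mr_mul, ← mr_mul, hf.adj]

theorem Fac.Ei (hf : Fac W Z i p) : mC Z.E * mr i = (mr p)ᵀ * mC W.E := by
  have h1 := congrArg Matrix.transpose hf.iE
  rw [transpose_mul, transpose_mul, transpose_transpose, Et, Et, Matrix.neg_mul, Matrix.mul_neg,
    neg_inj] at h1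
  exact h1

theorem Fac.iEi (hf : Fac W Z i p) : (mr i)ᵀ * mC Z.E * mr i = mC W.E := by
  rw [hf.iE, Matrix.mul_assoc, hf.pi, Matrix.mul_one]

theorem Fac.py (hf : Fac W Z i p) : W.y * mr p = mr p * Z.y := by
  have hW : W.yᵀ * mC W.E = -(mC W.E * W.y) := eq_neg_of_add_eq_zero_left W.skew
  have hZ : mC Z.E * Z.y = -(Z.yᵀ * mC Z.E) := eq_neg_of_add_eq_zero_right Z.skew
  have h1 : mC W.E * (W.y * mr p) = mC W.E * (mr p * Z.y) := by
    calc mC W.E * (W.y * mr p) = -(W.yᵀ * (mC W.E * mr p)) := by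
          rw [← Matrix.mul_assoc, ← Matrix.mul_assoc, hW, Matrix.neg_mul, neg_neg]
      _ = -((mr i * W.y)ᵀ * mC Z.E) := by
          rw [← hf.iE, transpose_mul, Matrix.mul_assoc]
      _ = -((mr i)ᵀ * (Z.yᵀ * mC Z.E)) := by
          rw [hf.hodge, transpose_mul, Matrix.mul_assoc]
      _ = (mr i)ᵀ * (mC Z.E * Z.y) := by rw [hZ, Matrix.mul_neg]
      _ = mC W.E * (mr p * Z.y) := by
          rw [← Matrix.mul_assoc, hf.iE, Matrix.mul_assoc]
  have h2 := congrArg (fun Z => (mC W.E)⁻¹ * Z) h1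
  simpa only [← Matrix.mul_assoc, Einv', Matrix.one_mul] using h2

theorem Fac.hσ (hf : Fac W Z i p) (σ : ℂ ≃+* ℂ) : mr i * W.y.map σ = Z.y.map σ * mr i := by
  have h1 := congrArg (fun M : Matrix (Fin z) (Fin w) ℂ => M.map σ) hf.hodge
  simp only [map_mul', mr_map] at h1
  exact h1

theorem Fac.pσ (hf : Fac W Z i p) (σ : ℂ ≃+* ℂ) : W.y.map σ * mr p = mr p * Z.y.map σ := by
  have h1 := congrArg (fun M : Matrix (Fin w) (Fin z) ℂ => M.map σ) hf.py
  simp only [map_mul', mr_map] at h1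
  exact h1

/-- the operator on `Z` which is `d` on `W` and zero on the complement -/
abbrev up' (i : Matrix (Fin z) (Fin w) ℚ) (p : Matrix (Fin w) (Fin z) ℚ)
    (d : Matrix (Fin w) (Fin w) ℂ) : Matrix (Fin z) (Fin z) ℂ := mr i * d * mr p

theorem Fac.up_mul (hf : Fac W Z i p) (a b : Matrix (Fin w) (Fin w) ℂ) :
    up' i p a * up' i p b = up' i p (a * b) := by
  unfold up'
  calc mr i * a * mr p * (mr i * b * mr p) = mr i * a * (mr p * mr i) * b * mr p := by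
        simp only [Matrix.mul_assoc]
    _ = _ := by rw [hf.pi, Matrix.mul_one]; simp only [Matrix.mul_assoc]

theorem Fac.up_inj (hf : Fac W Z i p) {a b : Matrix (Fin w) (Fin w) ℂ}
    (h : up' i p a = up' i p b) : a = b := by
  have h1 : ∀ a : Matrix (Fin w) (Fin w) ℂ, mr p * up' i p a * mr i = a := by
    intro a
    unfold up'
    calc mr p * (mr i * a * mr p) * mr i = (mr p * mr i) * a * (mr p * mr i) := by
          simp only [Matrix.mul_assoc]
      _ = a := by rw [hf.pi, Matrix.mul_one, Matrix.one_mul]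
  rw [← h1 a, h, h1]

theorem up_sub (a b : Matrix (Fin w) (Fin w) ℂ) :
    up' i p a - up' i p b = up' i p (a - b) := by
  unfold up'
  rw [← Matrix.sub_mul, ← Matrix.mul_sub]

/-- the part of the Lie algebra acting on `W` only -/
def KA (A : ∀ k : ℕ, Submodule ℚ ((Fin k → Fin n ⊕ Fin z) → ℚ)) (i : Matrix (Fin z) (Fin w) ℚ)
    (p : Matrix (Fin w) (Fin z) ℚ) : Submodule ℂ (Matrix (Fin w) (Fin w) ℂ) where
  carrier := {d | fromBlocks (0 : Matrix (Fin n) (Fin n) ℂ) 0 0 (up' i p d) ∈ LA A}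
  zero_mem' := by
    rw [Set.mem_ofPred_eq]
    unfold up'
    rw [Matrix.mul_zero, Matrix.zero_mul, fromBlocks_zero]
    exact (LA A).zero_mem
  add_mem' := by
    intro a b ha hb
    rw [Set.mem_ofPred_eq] at *
    have := (LA A).add_mem ha hb
    rw [fromBlocks_add, add_zero, add_zero, add_zero] at this
    unfold up' at this ⊢
    rwa [Matrix.mul_add, Matrix.add_mul]
  smul_mem' := by
    intro c a ha
    rw [Set.mem_ofPred_eq] at *
    have := (LA A).smul_mem c ha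
    rw [fromBlocks_smul, smul_zero, smul_zero, smul_zero] at this
    unfold up' at this ⊢
    rwa [Matrix.mul_smul, Matrix.smul_mul]

theorem mem_KA {d : Matrix (Fin w) (Fin w) ℂ} :
    d ∈ KA A i p ↔ fromBlocks (0 : Matrix (Fin n) (Fin n) ℂ) 0 0 (up' i p d) ∈ LA A := Iff.rfl

/-- `so(V)`, acting on `V`, on `W` by the spin representation and by zero on the complement of `W`
in `Z`, consists of symmetries -/
def Ind (V : HS n) (Γ : Fin n → Matrix (Fin w) (Fin w) ℚ) (c : ℚ)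
    (i : Matrix (Fin z) (Fin w) ℚ) (p : Matrix (Fin w) (Fin z) ℚ)
    (A : ∀ k : ℕ, Submodule ℚ ((Fin k → Fin n ⊕ Fin z) → ℚ)) : Prop :=
  ∀ z : Matrix (Fin n) (Fin n) ℂ, zᵀ * mC V.Q + mC V.Q * z = 0 →
    fromBlocks z 0 0 (up' i p (sp V Γ c z)) ∈ LA A

/-- a class which is not killed by the operators `(x, 0)` -/
def Linked (V : HS n) (A : ∀ k : ℕ, Submodule ℚ ((Fin k → Fin n ⊕ Fin z) → ℚ)) : Prop :=
  ∃ (m : ℕ) (f : (Fin m → Fin n ⊕ Fin z) → ℚ) (x : Matrix (Fin n) (Fin n) ℂ), f ∈ A m ∧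
    (n % 4 = 0 → ∀ J, f J ≠ 0 → Odd (nV J)) ∧
    xᵀ * mC V.Q + mC V.Q * x = 0 ∧
    der (fromBlocks x 0 0 (0 : Matrix (Fin z) (Fin z) ℂ)) (cx f) ≠ 0

theorem KA_br (hf : Fac W Z i p) : ∀ a ∈ KA A i p, ∀ b ∈ KA A i p, a * b - b * a ∈ KA A i p := by
  intro a ha b hb
  rw [mem_KA] at *
  have := LA_br _ ha _ hb
  rw [fromBlocks_multiply, fromBlocks_multiply, sub_eq_add_neg, fromBlocks_neg,
    fromBlocks_add] at this
  simp only [Matrix.mul_zero, Matrix.zero_mul, add_zero, zero_add, neg_zero] at this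
  rw [hf.up_mul, hf.up_mul, ← sub_eq_add_neg, up_sub] at this
  exact this

theorem KA_nor (hf : Fac W Z i p) (hI : Ind V Γ c i p A) {x : Matrix (Fin n) (Fin n) ℂ}
    (hx : xᵀ * mC V.Q + mC V.Q * x = 0) :
    ∀ a ∈ KA A i p, sp V Γ c x * a - a * sp V Γ c x ∈ KA A i p := by
  intro a ha
  rw [mem_KA] at *
  have := LA_br _ (hI x hx) _ ha
  rw [fromBlocks_multiply, fromBlocks_multiply, sub_eq_add_neg, fromBlocks_neg,
    fromBlocks_add] at this
  simp only [Matrix.mul_zero, Matrix.zero_mul, add_zero, zero_add, neg_zero] at this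
  rw [hf.up_mul, hf.up_mul, ← sub_eq_add_neg, up_sub] at this
  exact this

theorem wdg_skew (V : HS n) (hV : (V.x * V.x).trace = 2) (hS : V.Scalar) (a b : Fin n → ℂ) :
    (wdg (mC V.Q) a b)ᵀ * mC V.Q + mC V.Q * wdg (mC V.Q) a b = 0 :=
  g0_skew V (wdg_mem hV hS a b)

theorem KA_nor' (hV : (V.x * V.x).trace = 2) (hS : V.Scalar) (h : Cliff V W Γ c)
    (hf : Fac W Z i p) (hI : Ind V Γ c i p A) (hU : Uᵀ * ((c : ℂ) • mC V.Q) * U = 1)
    (k l : Fin n) (hkl : k ≠ l) : ∀ a ∈ KA A i p,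
    ga Γ U k * ga Γ U l * a - a * (ga Γ U k * ga Γ U l) ∈ KA A i p := by
  intro a ha
  have h1 := KA_nor hf hI (wdg_skew V hV hS (U.col k) (U.col l)) a ha
  rw [sp_ga h hU hkl, Matrix.smul_mul, Matrix.mul_smul, ← smul_sub]
  exact Submodule.smul_mem _ _ h1

theorem up_comm (hf : Fac W Z i p) {d : Matrix (Fin w) (Fin w) ℂ}
    (hd : ∀ σ : ℂ ≃+* ℂ, d * W.y.map σ = W.y.map σ * d) (σ : ℂ ≃+* ℂ) :
    up' i p d * Z.y.map σ = Z.y.map σ * up' i p d := by
  unfold up'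
  calc mr i * d * mr p * Z.y.map σ = mr i * d * (mr p * Z.y.map σ) := by
        simp only [Matrix.mul_assoc]
    _ = mr i * (d * W.y.map σ) * mr p := by rw [← hf.pσ]; simp only [Matrix.mul_assoc]
    _ = (mr i * W.y.map σ) * d * mr p := by rw [hd]; simp only [Matrix.mul_assoc]
    _ = Z.y.map σ * (mr i * d * mr p) := by rw [hf.hσ]; simp only [Matrix.mul_assoc]

theorem KA_comm (hf : Fac W Z i p) (hA : Cycles V Z A) {a d : Matrix (Fin w) (Fin w) ℂ}
    (ha : a ∈ KA A i p) (hd : ∀ σ : ℂ ≃+* ℂ, d * W.y.map σ = W.y.map σ * d) :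
    a * d = d * a := by
  have h1 := LA_comm hA (mem_KA.1 ha) (up_comm hf hd)
  rw [hf.up_mul, hf.up_mul] at h1
  exact hf.up_inj h1

theorem KA_skew (hf : Fac W Z i p) (hA : Cycles V Z A) {a : Matrix (Fin w) (Fin w) ℂ}
    (ha : a ∈ KA A i p) : aᵀ * mC W.E + mC W.E * a = 0 := by
  obtain ⟨b, d, h1, -, h2⟩ := LA_blocks hA (mem_KA.1 ha)
  rw [fromBlocks_inj] at h1
  rw [← h1.2.2.2] at h2
  unfold up' at h2
  have h3 := congrArg (fun M => (mr i)ᵀ * M * mr i) h2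
  simp only [Matrix.mul_zero, Matrix.zero_mul] at h3
  rw [Matrix.mul_add, Matrix.add_mul, transpose_mul, transpose_mul] at h3
  have e0 : (mr i)ᵀ * (mr p)ᵀ = 1 := by rw [← transpose_mul, hf.pi, transpose_one]
  have e1 : (mr i)ᵀ * ((mr p)ᵀ * (aᵀ * (mr i)ᵀ) * mC Z.E) * mr i = aᵀ * mC W.E := by
    calc (mr i)ᵀ * ((mr p)ᵀ * (aᵀ * (mr i)ᵀ) * mC Z.E) * mr i
        = ((mr i)ᵀ * (mr p)ᵀ) * aᵀ * ((mr i)ᵀ * mC Z.E * mr i) := by simp only [Matrix.mul_assoc]
      _ = _ := by rw [e0, Matrix.one_mul, hf.iEi]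
  have e2 : (mr i)ᵀ * (mC Z.E * (mr i * a * mr p)) * mr i = mC W.E * a := by
    calc (mr i)ᵀ * (mC Z.E * (mr i * a * mr p)) * mr i
        = ((mr i)ᵀ * mC Z.E * mr i) * a * (mr p * mr i) := by simp only [Matrix.mul_assoc]
      _ = _ := by rw [hf.iEi, hf.pi, Matrix.mul_one]
  rw [e1, e2] at h3
  exact h3

/-- linked systems: `KA` does not contain the spin Lie algebra -/
theorem not_all (hI : Ind V Γ c i p A) (h : Cliff V W Γ c)
    (hl : Linked V A) (hU : Uᵀ * ((c : ℂ) • mC V.Q) * U = 1) (hUU : U * U' = 1)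
    (h1 : ∀ k l, k ≠ l → ga Γ U k * ga Γ U l ∈ KA A i p) : False := by
  obtain ⟨m, f, x, hfA, -, hx, hne⟩ := hl
  apply hne
  have h4 : sp V Γ c x ∈ KA A i p := by
    refine (Submodule.span_le.2 ?_) (sp_span h hU hUU hx)
    rintro _ ⟨k, l, hkl, rfl⟩
    exact h1 k l hkl
  have h6 := (LA A).sub_mem (hI x hx) (mem_KA.1 h4)
  rw [sub_eq_add_neg, fromBlocks_neg, fromBlocks_add] at h6
  simp only [neg_zero, add_zero, add_neg_cancel] at h6
  exact h6 m f hfA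

end

end

end Pool.Agent.Y89.TX
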