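import Pool.Agent.Y89.TX.Elt
import Pool.Agent.Y430.TX.NORME
import Pool.Agent.Y195.TX.NORM0
import Pool.Agent.Y130.TX.PAR
import Pool.Agent.Y434.TX.FLOW

/-!
# Linked products: main theorem in every rank
-/

open Matrix Finset Function

set_option linter.unusedSectionVars false

namespace Pool.Agent.Y89.TX

noncomputable section

open Pool.Agent.W544.PG (HS HW mC cspan cx)
open Pool.Agent.Y89.KS
open Pool.Agent.Y89.TS
open Pool.Agent.Y89.TU hiding KA mem_KA Linked
open Pool.Agent.Y761.TS (act_act act_one actL)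

section gen
variable {ι κ : Type} [Fintype ι] [Fintype κ] {k : ℕ}

/-- substitution of a rectangular matrix in all variables -/
def actR {F : Type} [CommSemiring F] (M : Matrix κ ι F) (f : (Fin k → κ) → F) :
    (Fin k → ι) → F := fun J => ∑ I : Fin k → κ, (∏ s, M (I s) (J s)) * f I

theorem act_actR (M : Matrix κ ι ℂ) (g : Matrix ι ι ℂ) (f : (Fin k → κ) → ℂ) :
    act gᵀ (actR M f) = actR (M * g) f := by
  classical
  funext I
  unfold act actR
  simp only [Finset.mul_sum]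
  rw [Finset.sum_comm]
  refine Finset.sum_congr rfl fun K _ => ?_
  simp only [← mul_assoc]
  rw [← Finset.sum_mul]
  congr 1
  simp only [Matrix.mul_apply]
  rw [Finset.prod_univ_sum, Fintype.piFinset_univ]
  refine Finset.sum_congr rfl fun J _ => ?_
  rw [Finset.prod_mul_distrib, mul_comm]
  rfl

theorem actR_act (M : Matrix κ ι ℂ) (g : Matrix κ κ ℂ) (f : (Fin k → κ) → ℂ) :
    actR M (act gᵀ f) = actR (g * M) f := by
  classical
  funext I
  unfold act actR
  simp only [Finset.mul_sum]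
  rw [Finset.sum_comm]
  refine Finset.sum_congr rfl fun K _ => ?_
  simp only [← mul_assoc]
  rw [← Finset.sum_mul]
  congr 1
  simp only [Matrix.mul_apply]
  rw [Finset.prod_univ_sum, Fintype.piFinset_univ]
  refine Finset.sum_congr rfl fun J _ => ?_
  rw [Finset.prod_mul_distrib, mul_comm]
  rfl

theorem cx_actR (M : Matrix κ ι ℚ) (f : (Fin k → κ) → ℚ) :
    cx (actR M f) = actR (M.map (fun q : ℚ => (q : ℂ))) (cx f) := by
  funext J
  unfold cx actR
  push_cast
  rfl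

end gen

section
variable {n w z k : ℕ} {V : HS n} {W : HW w} {Z : HW z} {Γ : Fin n → Matrix (Fin w) (Fin w) ℚ}
  {c : ℚ} {i : Matrix (Fin z) (Fin w) ℚ} {p : Matrix (Fin w) (Fin z) ℚ}
  {A : ∀ k : ℕ, Submodule ℚ ((Fin k → Fin n ⊕ Fin z) → ℚ)} {U U' : Matrix (Fin n) (Fin n) ℂ}

/-- operators commuting with the conjugates of `y` commute with the spin Lie algebra -/
theorem InD_of_y (hV : (V.x * V.x).trace = 2) (hS : V.Scalar) (h : Cliff V W Γ c)
    (hU : Uᵀ * ((c : ℂ) • mC V.Q) * U = 1) {d : Matrix (Fin w) (Fin w) ℂ}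
    (hd : ∀ σ : ℂ ≃+* ℂ, d * W.y.map σ = W.y.map σ * d) : InD (ga Γ U) d := by
  let L : Submodule ℂ (Matrix (Fin n) (Fin n) ℂ) :=
    { carrier := {x | x ∈ g0 V ∧ d * sp V Γ c x = sp V Γ c x * d}
      zero_mem' := by
        refine ⟨fun L _ _ => L.zero_mem, ?_⟩
        have : sp V Γ c 0 = 0 := map_zero (spL V Γ c)
        rw [this, Matrix.mul_zero, Matrix.zero_mul]
      add_mem' := by
        rintro a b ⟨ha, ha'⟩ ⟨hb, hb'⟩
        refine ⟨g0_add V ha hb, ?_⟩
        rw [sp_add', Matrix.mul_add, Matrix.add_mul, ha', hb']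
      smul_mem' := by
        rintro t a ⟨ha, ha'⟩
        refine ⟨g0_smul V t ha, ?_⟩
        rw [sp_smul', Matrix.mul_smul, Matrix.smul_mul, ha'] }
  have hL : ∀ x ∈ g0 V, d * sp V Γ c x = sp V Γ c x * d := by
    intro x hx
    refine (hx L ?_ ?_).2
    · rintro a ⟨ha, ha'⟩ b ⟨hb, hb'⟩
      refine ⟨g0_br V ha hb, ?_⟩
      have e1 : sp V Γ c (a * b - b * a) = sp V Γ c a * sp V Γ c b - sp V Γ c b * sp V Γ c a :=
        h.brk ha
      rw [e1, Matrix.mul_sub, Matrix.sub_mul, ← Matrix.mul_assoc, ← Matrix.mul_assoc, ha', hb',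
        Matrix.mul_assoc, Matrix.mul_assoc, hb', ha', Matrix.mul_assoc, Matrix.mul_assoc]
    · intro σ
      refine ⟨x_mem V σ, ?_⟩
      have e1 : sp V Γ c (V.x.map σ) = W.y.map σ := (h.y σ).symm
      rw [e1, hd σ]
  intro j l
  by_cases hjl : j = l
  · subst hjl
    have h2 := (ga_clf h hU).sq j
    rw [h2, Matrix.mul_one, Matrix.one_mul]
  · rw [sp_ga h hU hjl, Matrix.mul_smul, Matrix.smul_mul,
      hL _ (wdg_mem hV hS (U.col j) (U.col l))]

/-- `X` is in the centre of `End(K) ⊗ ℂ` and skew for the Riemann form -/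
def Cen (W : HW w) (X : Matrix (Fin w) (Fin w) ℂ) : Prop :=
  (∀ σ : ℂ ≃+* ℂ, X * W.y.map σ = W.y.map σ * X) ∧
  (∀ D : Matrix (Fin w) (Fin w) ℚ, mC D * W.y = W.y * mC D → X * mC D = mC D * X) ∧
  Xᵀ * mC W.E + mC W.E * X = 0

theorem vol_cen (hn : n % 4 = 2) (h3 : 3 ≤ n) (hV : (V.x * V.x).trace = 2) (hS : V.Scalar)
    (h : Cliff V W Γ c) (hU : Uᵀ * ((c : ℂ) • mC V.Q) * U = 1) (hUU : U * U' = 1) :
    Cen W (vol Γ U) := by
  have hn2 : Even n := by
    rw [Nat.even_iff]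
    omega
  obtain ⟨hv1, -⟩ := vol_dg hn2 (by omega) hV hS h hU
  have h8 : Odd (n / 2) := by
    rw [Nat.odd_iff]
    omega
  rw [h8.neg_one_pow, neg_one_smul] at hv1
  refine ⟨inD_DD h hU hUU (vol_inD hn2 h hU), fun D hD => ?_, skew_of_dg W hv1⟩
  have hDy : ∀ σ : ℂ ≃+* ℂ, mC D * W.y.map σ = W.y.map σ * mC D := by
    intro σ
    have h1 := congrArg (fun M : Matrix (Fin w) (Fin w) ℂ => M.map σ) hD
    simp only [mul_map', mC_map'] at h1
    exact h1
  have hR : Pool.Agent.Y165.TS.Rules (ga Γ U) := by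
    obtain ⟨m1, m2, m3, m4⟩ := Pool.Agent.Y259.TS.t_mono (Fin w) n (ga Γ U) (ga_clf h hU)
    exact ⟨m1, m2, m3, m4⟩
  exact hR.mono_InD (InD_of_y hV hS h hU hDy) (n / 2) univ (by
    rw [Finset.card_univ, Fintype.card_fin]; omega)

/-- the elements of the centre -/
theorem half (α β : ℂ) (h : α * α + β * β = 1) : ∃ α' β' : ℂ, α' * α' + β' * β' = 1 ∧
    α' * α' - β' * β' = α ∧ 2 * (α' * β') = β := by
  obtain ⟨θ, hθ⟩ := Complex.cos_surjective α
  have h1 : Complex.sin θ * Complex.sin θ = β * β := by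
    have := Complex.sin_sq_add_cos_sq θ
    rw [hθ] at this
    linear_combination this - h
  have h2 : ∃ φ, Complex.cos φ = α ∧ Complex.sin φ = β := by
    rcases mul_self_eq_mul_self_iff.1 h1 with h3 | h3
    · exact ⟨θ, hθ, h3⟩
    · exact ⟨-θ, by rw [Complex.cos_neg, hθ], by rw [Complex.sin_neg, h3, neg_neg]⟩
  obtain ⟨φ, h3, h4⟩ := h2
  refine ⟨Complex.cos (φ / 2), Complex.sin (φ / 2), ?_, ?_, ?_⟩
  · have := Complex.sin_sq_add_cos_sq (φ / 2)
    linear_combination this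
  · have := Complex.cos_two_mul (φ / 2)
    have h5 := Complex.sin_sq_add_cos_sq (φ / 2)
    rw [show 2 * (φ / 2) = φ by ring, h3] at this
    linear_combination -this - h5
  · have := Complex.sin_two_mul (φ / 2)
    rw [show 2 * (φ / 2) = φ by ring, h4] at this
    linear_combination -this

/-- the symmetries are products of special symmetries, signs and elements of the centre -/
theorem exists_SP (hV : (V.x * V.x).trace = 2) (hS : V.Scalar) (h : Cliff V W Γ c)
    (hU : Uᵀ * ((c : ℂ) • mC V.Q) * U = 1) (hUU : U * U' = 1) (hn : 3 ≤ n)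
    {a a' : Matrix (Fin n) (Fin n) ℂ} {d d' : Matrix (Fin w) (Fin w) ℂ}
    (hr : Res V W a a' d d')
    (hc : ∀ x : Matrix (Fin n) (Fin n) ℂ, xᵀ * mC V.Q + mC V.Q * x = 0 →
      d * sp V Γ c x * d' = sp V Γ c (a * x * a')) :
    ∃ ε α β : ℂ, ε * ε = 1 ∧ (n % 4 ≠ 2 → α = 1 ∧ β = 0) ∧ α * α + β * β = 1 ∧
      SP V W Γ (fromBlocks (ε • a) 0 0 (d * (α • 1 + β • vol Γ U))) := by
  obtain ⟨ε, α₀, β₀, hε, h24, hαβ₀, hrel⟩ := norm_eps Pool.Agent.Y165.TU.t_NORM
    Pool.Agent.Y430.TX.t_norme Pool.Agent.Y195.TX.t_norm0 hV hS h hU hUU hn hr hc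
  -- the square root of the central element
  obtain ⟨α, β, e, e', he, he', hαβ, h24', hee, heE, hge, hC, hcm, hcm'⟩ : ∃ (α β : ℂ)
      (e e' : Matrix (Fin w) (Fin w) ℂ), e = α • 1 + β • vol Γ U ∧ e' = α • 1 - β • vol Γ U ∧
      α * α + β * β = 1 ∧ (n % 4 ≠ 2 → α = 1 ∧ β = 0) ∧ e * e' = 1 ∧
      eᵀ * mC W.E = mC W.E * e' ∧ (∀ v, gm Γ v * e' = e * gm Γ v) ∧
      (α₀ • 1 + β₀ • vol Γ U) * (e' * e') = 1 ∧
      (d * (e' * e') * d' = e' * e') ∧
      ∀ D : Matrix (Fin w) (Fin w) ℚ, mC D * W.y = W.y * mC D → e * mC D = mC D * e := by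
    by_cases h4 : n % 4 = 2
    · have hn2 : Even n := by
        rw [Nat.even_iff]
        omega
      have hn4 : 4 ≤ n := by omega
      obtain ⟨hv1, hv2⟩ := vol_dg hn2 hn4 hV hS h hU
      have h8 : Odd (n / 2) := by
        rw [Nat.odd_iff]
        omega
      rw [h8.neg_one_pow, neg_one_smul] at hv1 hv2
      have hcen := vol_cen h4 hn hV hS h hU hUU
      obtain ⟨α, β, h5, h6, h7⟩ := half α₀ β₀ hαβ₀
      have hdv := hr.vol hn2 h hU hUU
      have hmul : ∀ a b a' b' : ℂ, (a • (1 : Matrix (Fin w) (Fin w) ℂ) + b • vol Γ U) *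
          (a' • 1 + b' • vol Γ U) = (a * a' - b * b') • 1 + (a * b' + b * a') • vol Γ U := by
        intro a b a' b'
        have e1 : vol Γ U * vol Γ U = -1 := hv2
        simp only [add_mul, mul_add, Matrix.smul_mul, Matrix.mul_smul, one_mul, mul_one, smul_smul]
        rw [e1]
        module
      have hneg : ∀ a b : ℂ, a • (1 : Matrix (Fin w) (Fin w) ℂ) - b • vol Γ U =
          a • 1 + (-b) • vol Γ U := by
        intro a b
        rw [neg_smul, sub_eq_add_neg]
      refine ⟨α, β, _, _, rfl, rfl, h5, fun h => absurd h4 h, ?_, ?_, ?_, ?_, ?_, ?_⟩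
      · rw [hneg, hmul]
        have e1 : α * α - β * -β = 1 := by linear_combination h5
        have e2 : α * -β + β * α = 0 := by ring
        rw [e1, e2, one_smul, zero_smul, add_zero]
      · have e1 : (vol Γ U)ᵀ * mC W.E = -(mC W.E * vol Γ U) :=
          eq_neg_of_add_eq_zero_left hcen.2.2
        rw [transpose_add, transpose_smul, transpose_smul, transpose_one, Matrix.add_mul,
          Matrix.smul_mul, Matrix.smul_mul, e1, Matrix.mul_sub, Matrix.mul_smul, Matrix.mul_smul,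
          Matrix.one_mul, Matrix.mul_one, smul_neg, sub_eq_add_neg]
      · intro v
        rw [Matrix.mul_sub, Matrix.add_mul, Matrix.mul_smul, Matrix.mul_smul, Matrix.smul_mul,
          Matrix.smul_mul, gm_vol hn2 h hU hUU, Matrix.mul_one, Matrix.one_mul, smul_neg,
          sub_neg_eq_add]
      · rw [hneg, hmul, hmul, ← h6, ← h7]
        have e1 : (α * α - β * β) * (α * α - -β * -β) - 2 * (α * β) * (α * -β + -β * α) = 1 := by
          linear_combination (α * α + β * β + 1) * h5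
        have e2 : (α * α - β * β) * (α * -β + -β * α) + 2 * (α * β) * (α * α - -β * -β) = 0 := by
          ring
        rw [e1, e2, one_smul, zero_smul, add_zero]
      · rw [hneg, hmul, Matrix.mul_add, Matrix.add_mul, Matrix.mul_smul, Matrix.mul_smul,
          Matrix.smul_mul, Matrix.smul_mul, Matrix.mul_one, hr.d1, hdv, Matrix.mul_assoc, hr.d1,
          Matrix.mul_one]
      · intro D hD
        rw [Matrix.add_mul, Matrix.mul_add, Matrix.smul_mul, Matrix.smul_mul, Matrix.mul_smul,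
          Matrix.mul_smul, Matrix.one_mul, Matrix.mul_one, hcen.2.1 D hD]
    · obtain ⟨h5, h6⟩ := h24 h4
      refine ⟨1, 0, 1, 1, ?_, ?_, by ring, fun _ => ⟨rfl, rfl⟩, Matrix.mul_one _, ?_, ?_, ?_, ?_,
        ?_⟩
      · rw [one_smul, zero_smul, add_zero]
      · rw [one_smul, zero_smul, sub_zero]
      · rw [transpose_one, Matrix.one_mul, Matrix.mul_one]
      · intro v
        rw [Matrix.mul_one, Matrix.one_mul]
      · rw [h5, h6, one_smul, zero_smul, add_zero, Matrix.mul_one, Matrix.mul_one]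
      · rw [Matrix.mul_one, Matrix.mul_one, hr.d1]
      · intro D _
        rw [Matrix.mul_one, Matrix.one_mul]
  have he'e : e' * e = 1 := mul_eq_one_comm.1 hee
  refine ⟨ε, α, β, hε, h24', hαβ, ?_⟩
  rw [← he]
  refine ⟨ε • a, ε • a', d * e, e' * d', rfl, ?_, ?_, ?_, ?_, ?_, ?_, ?_, ?_, one_mul 1⟩
  · rw [Matrix.smul_mul, Matrix.mul_smul, smul_smul, hε, one_smul, hr.a1]
  · rw [Matrix.smul_mul, Matrix.mul_smul, smul_smul, hε, one_smul, hr.a2]
  · calc d * e * (e' * d') = d * (e * e') * d' := by simp only [Matrix.mul_assoc]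
      _ = 1 := by rw [hee, Matrix.mul_one, hr.d1]
  · calc e' * d' * (d * e) = e' * (d' * d) * e := by simp only [Matrix.mul_assoc]
      _ = 1 := by rw [hr.d2, Matrix.mul_one, he'e]
  · have h1 : a' * (mC V.Q)⁻¹ = (mC V.Q)⁻¹ * aᵀ := by
      calc a' * (mC V.Q)⁻¹ = (mC V.Q)⁻¹ * (mC V.Q * a') * (mC V.Q)⁻¹ := by
            rw [← Matrix.mul_assoc (mC V.Q)⁻¹, RQ, Matrix.one_mul]
        _ = (mC V.Q)⁻¹ * aᵀ := by
            rw [← hr.aQ, Matrix.mul_assoc, Matrix.mul_assoc, QRV, Matrix.mul_one]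
    rw [transpose_smul, Matrix.smul_mul, Matrix.smul_mul, Matrix.mul_smul, smul_smul, hε,
      one_smul, h1, Matrix.mul_assoc, ← transpose_mul, hr.a2, transpose_one, Matrix.mul_one]
  · rw [transpose_mul, Matrix.mul_assoc, hr.dE, ← Matrix.mul_assoc, heE, Matrix.mul_assoc]
  · intro v
    have h1 : e * gm Γ v * e' = gm Γ v * (e' * e') := by
      rw [← hge v, Matrix.mul_assoc]
    calc d * e * gm Γ v * (e' * d') = d * (e * gm Γ v * e') * d' := by
          simp only [Matrix.mul_assoc]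
      _ = (d * gm Γ v * 1) * (e' * e') * d' := by rw [h1]; simp only [Matrix.mul_assoc,
            Matrix.mul_one]
      _ = (d * gm Γ v * d') * (d * (e' * e') * d') := by
          rw [← hr.d2]; simp only [Matrix.mul_assoc]
      _ = (ε • gm Γ (a *ᵥ v)) * ((α₀ • 1 + β₀ • vol Γ U) * (e' * e')) := by
          rw [hrel, hcm, Matrix.mul_assoc]
      _ = (1 : ℂ) • gm Γ ((ε • a) *ᵥ v) := by
          rw [hC, Matrix.mul_one, one_smul, Matrix.smul_mulVec, map_smul]
  · intro D hD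
    rw [Matrix.mul_assoc, hcm' D hD, ← Matrix.mul_assoc, hr.cD D hD, Matrix.mul_assoc]

/-- the substitution `1 ⊕ p` -/
abbrev pb (n : ℕ) (p : Matrix (Fin w) (Fin z) ℚ) (t : (Fin k → Fin n ⊕ Fin w) → ℚ) :
    (Fin k → Fin n ⊕ Fin z) → ℚ :=
  actR (fromBlocks (1 : Matrix (Fin n) (Fin n) ℚ) 0 0 p) t

theorem pb_inv (hf : Fac W Z i p) {g : Matrix (Fin n ⊕ Fin z) (Fin n ⊕ Fin z) ℂ}
    {a a' : Matrix (Fin n) (Fin n) ℂ} {d d' : Matrix (Fin z) (Fin z) ℂ}
    (hg : Blk V Z g a a' d d') (t : (Fin k → Fin n ⊕ Fin w) → ℚ)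
    (ht : act (fromBlocks a 0 0 (mr p * d * mr i))ᵀ (cx t) = cx t) :
    act gᵀ (cx (pb n p t)) = cx (pb n p t) := by
  have e1 : (fromBlocks (1 : Matrix (Fin n) (Fin n) ℚ) 0 0 p).map (fun q : ℚ => (q : ℂ)) =
      fromBlocks (1 : Matrix (Fin n) (Fin n) ℂ) 0 0 (mr p) := by
    ext a b
    rcases a with a | a <;> rcases b with b | b
    · by_cases hab : a = b
      · subst hab; simp
      · simp [hab]
    · simp
    · simp
    · simp [mr]
  rw [cx_actR, e1, act_actR]
  have e2 : fromBlocks (1 : Matrix (Fin n) (Fin n) ℂ) 0 0 (mr p) * g =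
      fromBlocks a 0 0 (mr p * d * mr i) * fromBlocks (1 : Matrix (Fin n) (Fin n) ℂ) 0 0 (mr p) := by
    rw [hg.eq, fromBlocks_multiply, fromBlocks_multiply]
    simp only [Matrix.mul_zero, Matrix.zero_mul, add_zero, zero_add, Matrix.one_mul,
      Matrix.mul_one]
    rw [← (hg.pd hf).1]
  rw [e2, ← actR_act, ht]

/-- **Linked products, every rank.** -/
theorem main (hV : (V.x * V.x).trace = 2) (hS : V.Scalar) (h : Cliff V W Γ c) (hn : 3 ≤ n)
    (hf : Fac W Z i p) (hA : Cycles V Z A) (hH : ∀ k : ℕ, ∀ t ∈ A k, IsHodge V Z t)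
    (hI : Ind V Γ c i p A) (hl : Linked V A) {t : (Fin k → Fin n ⊕ Fin w) → ℚ}
    (ht : IsHodge V W t) (hev : ∀ J, t J ≠ 0 → Even (nV J))
    (hneu : n % 4 = 2 → ∀ X : Matrix (Fin w) (Fin w) ℂ, Cen W X →
      der (fromBlocks (0 : Matrix (Fin n) (Fin n) ℂ) 0 0 X) (cx t) = 0) :
    pb n p t ∈ A k := by
  obtain ⟨U, U', hU, hUU, hU'U⟩ := exists_onb V h.ne
  refine tann tT0R Pool.Agent.Y960.TU.t_weil2 hA hH fun g hg => ?_
  obtain ⟨a, a', d, d', hb⟩ := blk hA hg
  have hr : Res V W a a' (mr p * d * mr i) (mr p * d' * mr i) := hb.res hf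
  have hcen := KA_cen Pool.Agent.Y657.TV.t_ideal Pool.Agent.Y814.TX.t_ideale
    (Pool.Agent.Y130.TX.t_par Pool.Agent.Y434.TX.t_weil3) Pool.Agent.Y259.TS.t_mono
    hV hS h hf hA hI hl hU hUU hU'U hn
  obtain ⟨ε, α, β, hε, h24, hαβ, hSP⟩ := exists_SP hV hS h hU hUU hn hr
    (fun x hx => conj_eq hV hS h hf hA hI hU hUU hn hcen hg hb hx)
  refine pb_inv hf hb t ?_
  have hfix : act (fromBlocks (ε • a) 0 0 ((mr p * d * mr i) * (α • 1 + β • vol Γ U)))ᵀ (cx t) =
      cx t := by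
    have h1 : t ∈ IS (SP V W Γ) k := mainA hV (IS_cycles hV hS h) h (tri_IS h) ht
    exact h1 _ hSP
  -- the centre acts trivially
  have hc1 : act (fromBlocks (1 : Matrix (Fin n) (Fin n) ℂ) 0 0 (α • 1 + β • vol Γ U))ᵀ (cx t) =
      cx t := by
    by_cases h4 : n % 4 = 2
    · have hn2 : Even n := by
        rw [Nat.even_iff]
        omega
      obtain ⟨-, hv2⟩ := vol_dg hn2 (by omega) hV hS h hU
      have h8 : Odd (n / 2) := by
        rw [Nat.odd_iff]
        omega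
      rw [h8.neg_one_pow, neg_one_smul] at hv2
      have h9 := Pool.Agent.Y434.TX.t_rot (Fin n ⊕ Fin w)
        (fromBlocks 0 0 0 (1 : Matrix (Fin w) (Fin w) ℂ)) (fromBlocks 0 0 0 (vol Γ U))
        (by rw [fromBlocks_multiply]; simp) (by rw [fromBlocks_multiply]; simp)
        (by rw [fromBlocks_multiply]; simp)
        (by rw [fromBlocks_multiply, fromBlocks_neg]; simp [hv2]) k (cx t)
        (hneu h4 _ (vol_cen h4 hn hV hS h hU hUU)) α β hαβ
      have e1 : (1 : Matrix (Fin n ⊕ Fin w) (Fin n ⊕ Fin w) ℂ) -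
          fromBlocks 0 0 0 (1 : Matrix (Fin w) (Fin w) ℂ) +
          α • fromBlocks 0 0 0 (1 : Matrix (Fin w) (Fin w) ℂ) +
          β • fromBlocks 0 0 0 (vol Γ U) =
          fromBlocks (1 : Matrix (Fin n) (Fin n) ℂ) 0 0 (α • 1 + β • vol Γ U) := by
        rw [← fromBlocks_one, sub_eq_add_neg, fromBlocks_neg, fromBlocks_smul, fromBlocks_smul,
          fromBlocks_add, fromBlocks_add, fromBlocks_add]
        simp
      rw [e1] at h9
      exact h9
    · obtain ⟨h5, h6⟩ := h24 h4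
      rw [h5, h6, one_smul, zero_smul, add_zero, fromBlocks_one, Matrix.transpose_one, act_one]
  have h1 : act (fromBlocks (ε • a) 0 0 (mr p * d * mr i))ᵀ (cx t) = cx t := by
    have e1 : fromBlocks (ε • a) 0 0 ((mr p * d * mr i) * (α • 1 + β • vol Γ U)) =
        fromBlocks (1 : Matrix (Fin n) (Fin n) ℂ) 0 0 (α • 1 + β • vol Γ U) *
          fromBlocks (ε • a) 0 0 (mr p * d * mr i) := by
      rw [fromBlocks_multiply]
      simp only [Matrix.mul_zero, Matrix.zero_mul, add_zero, zero_add, Matrix.one_mul]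
      congr 1
      by_cases h4 : n % 4 = 2
      · have hn2 : Even n := by
          rw [Nat.even_iff]
          omega
        rw [Matrix.mul_add, Matrix.add_mul, Matrix.mul_smul, Matrix.mul_smul, Matrix.smul_mul,
          Matrix.smul_mul, Matrix.mul_one, Matrix.one_mul, hr.vol hn2 h hU hUU]
      · obtain ⟨h5, h6⟩ := h24 h4
        rw [h5, h6, one_smul, zero_smul, add_zero, Matrix.mul_one, Matrix.one_mul]
    rw [e1, transpose_mul, ← act_act, hc1] at hfix
    exact hfix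
  have h2 := act_sgn ε 1 a (mr p * d * mr i) (cx t) (fun J hJ => by
    obtain ⟨r, hr⟩ := hev J (cx_ne hJ)
    rw [hr, ← two_mul, pow_mul, pow_two, hε, one_pow])
  rw [one_smul, h1] at h2
  exact h2.symm

end

end

end Pool.Agent.Y89.TX
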