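import Pool.Agent.Y89.TX.Main

/-!
# Linked products: odd classes, powers of `X`
-/

open Matrix Finset Function

set_option linter.unusedSectionVars false

namespace Pool.Agent.Y89.TX

noncomputable section

open Pool.Agent.W544.PG (HS HW mC cspan cx)
open Pool.Agent.Y89.KS
open Pool.Agent.Y89.TS
open Pool.Agent.Y89.TU hiding KA mem_KA Linked
open Pool.Agent.Y761.TS (act_act act_one actL)

section
variable {n w z k : ℕ} {V : HS n} {W : HW w} {Z : HW z} {Γ : Fin n → Matrix (Fin w) (Fin w) ℚ}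
  {c : ℚ} {i : Matrix (Fin z) (Fin w) ℚ} {p : Matrix (Fin w) (Fin z) ℚ}
  {A : ∀ k : ℕ, Submodule ℚ ((Fin k → Fin n ⊕ Fin z) → ℚ)} {U U' : Matrix (Fin n) (Fin n) ℂ}

/-- a nonzero class with one variable in `V` is not killed by `so(V)` -/
theorem onevar (hV : (V.x * V.x).trace = 2) (hS : V.Scalar) {f : (Fin k → Fin n ⊕ Fin z) → ℚ}
    (hf : f ≠ 0) (h1 : ∀ J, f J ≠ 0 → nV J = 1) :
    ∃ x : Matrix (Fin n) (Fin n) ℂ, xᵀ * mC V.Q + mC V.Q * x = 0 ∧
      der (fromBlocks x 0 0 (0 : Matrix (Fin z) (Fin z) ℂ)) (cx f) ≠ 0 := by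
  by_contra hcon
  push Not at hcon
  apply hf
  funext J
  by_contra hJ
  rw [Pi.zero_apply] at hJ
  have h2 := h1 J hJ
  unfold nV at h2
  obtain ⟨s, hs⟩ := Finset.card_eq_one.1 h2
  have hs1 : (J s).isLeft = true := by
    have : s ∈ univ.filter fun s => (J s).isLeft = true := by rw [hs]; simp
    simpa using this
  have hs2 : ∀ s', s' ≠ s → (J s').isLeft = false := by
    intro s' hs'
    by_contra h3
    have : s' ∈ univ.filter fun s => (J s).isLeft = true := by
      simpa using h3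
    rw [hs, Finset.mem_singleton] at this
    exact hs' this
  obtain ⟨q0, hq0⟩ := Sum.isLeft_iff.1 hs1
  obtain ⟨U, U', hU, hUU, -⟩ := exists_onb V (c := 1) one_ne_zero
  have hu : (fun q : Fin n => (f (update J s (Sum.inl q)) : ℂ)) = 0 := by
    refine van (c := 1) hU hUU (KS.two_le V hV) one_ne_zero ?_ hV hS
    intro x hx
    have h3 := hcon x (g0_skew V hx)
    funext q
    have h4 := congrFun h3 (update J s (Sum.inl q))
    unfold der at h4
    rw [Finset.sum_eq_single s] at h4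
    · unfold sl at h4
      rw [Fintype.sum_sum_type] at h4
      simp only [update_self, update_idem, Pi.zero_apply] at h4
      have h5 : ∀ b : Fin z, fromBlocks x 0 0 (0 : Matrix (Fin z) (Fin z) ℂ) (Sum.inr b)
          (Sum.inl q) = 0 := fun b => rfl
      simp only [h5, zero_mul, Finset.sum_const_zero, add_zero] at h4
      exact h4
    · intro s' _ hs'
      unfold sl
      rw [Fintype.sum_sum_type]
      obtain ⟨b, hb⟩ : ∃ b, J s' = Sum.inr b := by
        rcases h6 : J s' with a | b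
        · have := hs2 s' hs'
          rw [h6] at this
          simp at this
        · exact ⟨b, rfl⟩
      rw [update_of_ne hs', hb]
      simp
    · intro h6
      exact absurd (Finset.mem_univ _) h6
  have h3 := congrFun hu q0
  simp only [Pi.zero_apply] at h3
  have h4 : update J s (Sum.inl q0) = J := by
    rw [← hq0, update_eq_self]
  rw [h4] at h3
  exact hJ (by exact_mod_cast h3)

theorem sum_cases (x : Fin n ⊕ Fin w → ℂ) : ∑ r, x r = ∑ r, x (Sum.inl r) + ∑ r, x (Sum.inr r) :=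
  Fintype.sum_sum_type _

/-- the Kuga-Satake class is a Hodge class -/
theorem tri_hodge (h : Cliff V W Γ c) : IsHodge V W (tri (fun j => W.E * Γ j)) := by
  intro J
  rw [Fin.sum_univ_three]
  have e : ∀ (J : Fin 3 → Fin n ⊕ Fin w), (tri (fun j => W.E * Γ j) J : ℂ) =
      Sum.elim (fun j => fromBlocks 0 0 0 (mC W.E * mC (Γ j)) (J 1) (J 2)) (fun _ => 0) (J 0) := by
    intro J
    have h1 : ∀ j, mC (W.E * Γ j) = mC W.E * mC (Γ j) := fun j => mC_mul' _ _
    unfold tri
    rcases J 0 with a | a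
    · simp only [Sum.elim_inl, ← h1]
      rcases J 1 with b | b <;> rcases J 2 with c | c <;> simp [fromBlocks, mC]
    · simp
  simp only [e, sum_cases]
  have hb : ∀ j, mC W.E * gm Γ (V.x *ᵥ Pi.single j 1) + W.yᵀ * (mC W.E * mC (Γ j)) +
      mC W.E * mC (Γ j) * W.y = 0 := by
    intro j
    have h2 := h.b (RingEquiv.refl ℂ) (Pi.single j 1)
    have h3 : gam (fun i => mC (Γ i)) (Pi.single j 1) = mC (Γ j) := by
      change ∑ i, (Pi.single j (1 : ℂ) : Fin n → ℂ) i • mC (Γ i) = _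
      simp [Pi.single_apply]
    rw [map_refl', map_refl', h3] at h2
    change _ = gm Γ (V.x *ᵥ Pi.single j 1) at h2
    rw [← h2, ← Matrix.mul_assoc W.yᵀ, eq_neg_of_add_eq_zero_left W.skew, Matrix.mul_sub,
      Matrix.neg_mul]
    simp only [Matrix.mul_assoc]
    abel
  have hg : ∀ j, gm Γ (V.x *ᵥ Pi.single j 1) = ∑ r, V.x r j • mC (Γ r) := by
    intro j
    rw [Matrix.mulVec_single_one]
    rfl
  rcases h0 : J 0 with j | j <;> rcases h1 : J 1 with a | a <;> rcases h2 : J 2 with b | b <;>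
    simp [Xop, h0, h1, h2]
  have h3 := congrFun (congrFun (hb j) a) b
  rw [hg, Finset.mul_sum] at h3
  simp only [Matrix.add_apply, Matrix.sum_apply, Matrix.mul_smul, Matrix.smul_apply,
    smul_eq_mul, Matrix.zero_apply] at h3
  rw [← h3]
  congr 1
  rw [Matrix.mul_apply]
  exact Finset.sum_congr rfl fun r _ => mul_comm _ _

/-- substitution and restriction -/
theorem pb_inj (hf : Fac W Z i p) {s t : (Fin k → Fin n ⊕ Fin w) → ℂ}
    (h : actR (fromBlocks (1 : Matrix (Fin n) (Fin n) ℂ) 0 0 (mr p)) s =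
      actR (fromBlocks (1 : Matrix (Fin n) (Fin n) ℂ) 0 0 (mr p)) t) : s = t := by
  classical
  have h1 : ∀ u : (Fin k → Fin n ⊕ Fin w) → ℂ,
      actR (fromBlocks (1 : Matrix (Fin n) (Fin n) ℂ) 0 0 (mr i))
        (actR (fromBlocks (1 : Matrix (Fin n) (Fin n) ℂ) 0 0 (mr p)) u) = u := by
    intro u
    have h2 : ∀ (M : Matrix (Fin n ⊕ Fin w) (Fin n ⊕ Fin z) ℂ)
        (M' : Matrix (Fin n ⊕ Fin z) (Fin n ⊕ Fin w) ℂ), actR M' (actR M u) = actR (M * M') u := by
      intro M M'
      funext I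
      unfold actR
      simp only [Finset.mul_sum]
      rw [Finset.sum_comm]
      refine Finset.sum_congr rfl fun K _ => ?_
      simp only [← mul_assoc]
      rw [← Finset.sum_mul]
      congr 1
      simp only [Matrix.mul_apply]
      rw [Finset.prod_univ_sum, Fintype.piFinset_univ]
      refine Finset.sum_congr rfl fun J _ => ?_
      rw [Finset.prod_mul_distrib, mul_comm]
    rw [h2, fromBlocks_multiply]
    simp only [Matrix.mul_zero, Matrix.zero_mul, add_zero, zero_add, Matrix.one_mul]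
    rw [hf.pi, fromBlocks_one]
    have h3 : actR (1 : Matrix (Fin n ⊕ Fin w) (Fin n ⊕ Fin w) ℂ) u =
        act (1 : Matrix (Fin n ⊕ Fin w) (Fin n ⊕ Fin w) ℂ)ᵀ u := rfl
    rw [h3, Matrix.transpose_one, act_one]
  rw [← h1 s, h, h1]

theorem pb_cx (t : (Fin k → Fin n ⊕ Fin w) → ℚ) : cx (pb n p t) =
    actR (fromBlocks (1 : Matrix (Fin n) (Fin n) ℂ) 0 0 (mr p)) (cx t) := by
  have e1 : (fromBlocks (1 : Matrix (Fin n) (Fin n) ℚ) 0 0 p).map (fun q : ℚ => (q : ℂ)) =
      fromBlocks (1 : Matrix (Fin n) (Fin n) ℂ) 0 0 (mr p) := by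
    ext a b
    rcases a with a | a <;> rcases b with b | b
    · by_cases hab : a = b
      · subst hab; simp
      · simp [hab]
    · simp
    · simp
    · simp [mr]
  rw [cx_actR, e1]

theorem pb_inv' (hf : Fac W Z i p) {g : Matrix (Fin n ⊕ Fin z) (Fin n ⊕ Fin z) ℂ}
    {a a' : Matrix (Fin n) (Fin n) ℂ} {d d' : Matrix (Fin z) (Fin z) ℂ}
    (hg : Blk V Z g a a' d d') (t : (Fin k → Fin n ⊕ Fin w) → ℚ)
    (ht : act gᵀ (cx (pb n p t)) = cx (pb n p t)) :
    act (fromBlocks a 0 0 (mr p * d * mr i))ᵀ (cx t) = cx t := by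
  apply pb_inj hf
  rw [actR_act]
  rw [pb_cx, act_actR] at ht
  have e2 : fromBlocks (1 : Matrix (Fin n) (Fin n) ℂ) 0 0 (mr p) * g =
      fromBlocks a 0 0 (mr p * d * mr i) * fromBlocks (1 : Matrix (Fin n) (Fin n) ℂ) 0 0 (mr p) := by
    rw [hg.eq, fromBlocks_multiply, fromBlocks_multiply]
    simp only [Matrix.mul_zero, Matrix.zero_mul, add_zero, zero_add, Matrix.one_mul,
      Matrix.mul_one]
    rw [← (hg.pd hf).1]
  rw [← e2, ht]

/-- **One class in an odd number of variables in `V`.** -/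
theorem main_odd (hV : (V.x * V.x).trace = 2) (hS : V.Scalar) (h : Cliff V W Γ c) (hn : 3 ≤ n)
    (hf : Fac W Z i p) (hA : Cycles V Z A) (hH : ∀ k : ℕ, ∀ t ∈ A k, IsHodge V Z t)
    (hI : Ind V Γ c i p A) (hl : Linked V A) (h42 : n % 4 ≠ 2)
    {m : ℕ} {s : (Fin m → Fin n ⊕ Fin w) → ℚ} (hs : IsHodge V W s) (hsA : pb n p s ∈ A m)
    (hs0 : s ≠ 0) (hsodd : ∀ J, s J ≠ 0 → Odd (nV J))
    {t : (Fin k → Fin n ⊕ Fin w) → ℚ} (ht : IsHodge V W t) : pb n p t ∈ A k := by
  obtain ⟨U, U', hU, hUU, hU'U⟩ := exists_onb V h.ne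
  refine tann tT0R Pool.Agent.Y960.TU.t_weil2 hA hH fun g hg => ?_
  obtain ⟨a, a', d, d', hb⟩ := blk hA hg
  have hr : Res V W a a' (mr p * d * mr i) (mr p * d' * mr i) := hb.res hf
  have hcen := KA_cen Pool.Agent.Y657.TV.t_ideal Pool.Agent.Y814.TX.t_ideale
    (Pool.Agent.Y130.TX.t_par Pool.Agent.Y434.TX.t_weil3) Pool.Agent.Y259.TS.t_mono
    hV hS h hf hA hI hl hU hUU hU'U hn
  obtain ⟨ε, α, β, hε, h24, -, hSP⟩ := exists_SP hV hS h hU hUU hn hr
    (fun x hx => conj_eq hV hS h hf hA hI hU hUU hn hcen hg hb hx)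
  refine pb_inv hf hb t ?_
  obtain ⟨h5, h6⟩ := h24 h42
  rw [h5, h6, one_smul, zero_smul, add_zero, Matrix.mul_one] at hSP
  have hfix : ∀ {l : ℕ} (u : (Fin l → Fin n ⊕ Fin w) → ℚ), IsHodge V W u →
      act (fromBlocks (ε • a) 0 0 (mr p * d * mr i))ᵀ (cx u) = cx u := by
    intro l u hu
    have h1 : u ∈ IS (SP V W Γ) l := mainA hV (IS_cycles hV hS h) h (tri_IS h) hu
    exact h1 _ hSP
  have hs2 := pb_inv' hf hb s (hg m _ (cx_mem hsA))
  have h2 := act_sgn ε ε a (mr p * d * mr i) (cx s) (fun J hJ => by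
    obtain ⟨r, hr⟩ := hsodd J (cx_ne hJ)
    rw [hr, pow_succ, pow_mul, pow_two, hε, one_pow, one_mul])
  rw [hfix s hs, hs2] at h2
  have hε1 : ε = 1 := by
    rcases mul_self_eq_one_iff.1 hε with h3 | h3
    · exact h3
    · exfalso
      apply hs0
      funext J
      have h4 := congrFun h2 J
      rw [h3, Pi.smul_apply, smul_eq_mul, neg_one_mul] at h4
      unfold cx at h4
      have h5 : ((s J : ℚ) : ℂ) = 0 := by
        have : (2 : ℂ) * (s J : ℂ) = 0 := by linear_combination h4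
        exact (mul_eq_zero.1 this).resolve_left two_ne_zero
      rw [Pi.zero_apply]
      exact_mod_cast h5
  have h3 := hfix t ht
  rwa [hε1, one_smul] at h3

/-- even rank: the special symmetry `-1` on `V` -/
theorem neg_SP (hn2 : Even n) (hn : 4 ≤ n) (hV : (V.x * V.x).trace = 2) (hS : V.Scalar)
    (h : Cliff V W Γ c) (hU : Uᵀ * ((c : ℂ) • mC V.Q) * U = 1) (hUU : U * U' = 1) :
    SP V W Γ (fromBlocks ((-1 : ℂ) • (1 : Matrix (Fin n) (Fin n) ℂ)) 0 0 (vol Γ U)) := by
  obtain ⟨hv1, hv2⟩ := vol_dg hn2 hn hV hS h hU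
  have hv3 : vol Γ U * dg W (vol Γ U) = 1 := by
    rw [hv1, Matrix.mul_smul, hv2, smul_smul, ← mul_pow, neg_one_mul, neg_neg, one_pow, one_smul]
  have hv4 : dg W (vol Γ U) * vol Γ U = 1 := mul_eq_one_comm.1 hv3
  have h1 : ((-1 : ℂ) • (1 : Matrix (Fin n) (Fin n) ℂ)) * ((-1 : ℂ) • 1) = 1 := by
    rw [Matrix.smul_mul, Matrix.mul_smul, smul_smul, Matrix.one_mul]
    norm_num
  refine ⟨(-1 : ℂ) • 1, (-1 : ℂ) • 1, vol Γ U, dg W (vol Γ U), rfl, h1, h1, hv3, hv4, ?_, ?_, ?_,
    ?_, one_mul 1⟩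
  · rw [transpose_smul, transpose_one, Matrix.smul_mul, Matrix.one_mul, Matrix.mul_smul,
      Matrix.mul_one, smul_smul]
    norm_num
  · unfold dg
    rw [← Matrix.mul_assoc, ← Matrix.mul_assoc, Einv, Matrix.one_mul]
  · intro v
    have h2 := gm_vol hn2 h hU hUU v
    have h3 : vol Γ U * gm Γ v = -(gm Γ v * vol Γ U) := by rw [h2, neg_neg]
    rw [h3, Matrix.neg_mul, Matrix.mul_assoc, hv3, Matrix.mul_one, one_smul, Matrix.smul_mulVec,
      Matrix.one_mulVec, map_smul, neg_one_smul]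
  · intro D hD
    have hDy : ∀ σ : ℂ ≃+* ℂ, mC D * W.y.map σ = W.y.map σ * mC D := by
      intro σ
      have h1 := congrArg (fun M : Matrix (Fin w) (Fin w) ℂ => M.map σ) hD
      simp only [mul_map', mC_map'] at h1
      exact h1
    have hR : Pool.Agent.Y165.TS.Rules (ga Γ U) := by
      obtain ⟨m1, m2, m3, m4⟩ := Pool.Agent.Y259.TS.t_mono (Fin w) n (ga Γ U) (ga_clf h hU)
      exact ⟨m1, m2, m3, m4⟩
    obtain ⟨m, hm⟩ := hn2
    exact hR.mono_InD (InD_of_y hV hS h hU hDy) m univ (by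
      rw [Finset.card_univ, Fintype.card_fin]; omega)

/-- even rank: a Hodge class without variables in `W` has an even number of variables -/
theorem even_of (hn2 : Even n) (hn : 4 ≤ n) (hV : (V.x * V.x).trace = 2) (hS : V.Scalar)
    (h : Cliff V W Γ c) {t : (Fin k → Fin n ⊕ Fin w) → ℚ} (ht : IsHodge V W t)
    (hl : ∀ J, t J ≠ 0 → ∀ s, (J s).isLeft = true) : t = 0 ∨ ∀ J, t J ≠ 0 → Even (nV J) := by
  obtain ⟨U, U', hU, hUU, hU'U⟩ := exists_onb V h.ne
  have hk : ∀ J, t J ≠ 0 → nV J = k := by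
    intro J hJ
    unfold nV
    rw [Finset.filter_true_of_mem fun s _ => hl J hJ s, Finset.card_univ, Fintype.card_fin]
  rcases Nat.even_or_odd k with h1 | h1
  · right
    intro J hJ
    rw [hk J hJ]
    exact h1
  · left
    have h2 : t ∈ IS (SP V W Γ) k := mainA hV (IS_cycles hV hS h) h (tri_IS h) ht
    have h3 := h2 _ (neg_SP hn2 hn hV hS h hU hUU)
    rw [act_sgn (-1) (-1) 1 (vol Γ U) (cx t) (fun J hJ => by
      rw [hk J (cx_ne hJ)]; exact h1.neg_one_pow)] at h3
    have h4 : act (fromBlocks (1 : Matrix (Fin n) (Fin n) ℂ) 0 0 (vol Γ U))ᵀ (cx t) = cx t := by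
      funext I
      unfold act
      by_cases hI : ∀ s, (I s).isLeft = true
      · rw [Finset.sum_eq_single I]
        · have h5 : ∀ s, (fromBlocks (1 : Matrix (Fin n) (Fin n) ℂ) 0 0 (vol Γ U))ᵀ (I s) (I s) =
              1 := by
            intro s
            obtain ⟨a, ha⟩ := Sum.isLeft_iff.1 (hI s)
            rw [ha]
            simp
          simp only [h5, Finset.prod_const_one, one_mul]
        · intro J _ hJI
          by_cases hJ0 : cx t J = 0
          · rw [hJ0, mul_zero]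
          · obtain ⟨s, hs⟩ := Function.ne_iff.1 hJI
            have h5 : (fromBlocks (1 : Matrix (Fin n) (Fin n) ℂ) 0 0 (vol Γ U))ᵀ (I s) (J s) =
                0 := by
              obtain ⟨a, ha⟩ := Sum.isLeft_iff.1 (hI s)
              obtain ⟨b, hb⟩ := Sum.isLeft_iff.1 (hl J (cx_ne hJ0) s)
              rw [ha, hb] at hs ⊢
              have : b ≠ a := fun h6 => hs (by rw [h6])
              simp [Matrix.transpose_apply, this]
            rw [Finset.prod_eq_zero (Finset.mem_univ s) h5, zero_mul]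
        · intro h6
          exact absurd (Finset.mem_univ _) h6
      · have h6 : cx t I = 0 := by
          by_contra h7
          exact hI (hl I (cx_ne h7))
        rw [h6]
        refine Finset.sum_eq_zero fun J _ => ?_
        by_cases hJ0 : cx t J = 0
        · rw [hJ0, mul_zero]
        · push Not at hI
          obtain ⟨s, hs⟩ := hI
          have h5 : (fromBlocks (1 : Matrix (Fin n) (Fin n) ℂ) 0 0 (vol Γ U))ᵀ (I s) (J s) =
              0 := by
            obtain ⟨b, hb⟩ := Sum.isLeft_iff.1 (hl J (cx_ne hJ0) s)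
            rcases h8 : I s with a | a
            · rw [h8] at hs
              simp at hs
            · rw [hb]
              simp
          rw [Finset.prod_eq_zero (Finset.mem_univ s) h5, zero_mul]
    rw [h4] at h3
    funext J
    have h5 := congrFun h3 J
    rw [Pi.smul_apply, smul_eq_mul, neg_one_mul] at h5
    unfold cx at h5
    have h6 : ((t J : ℚ) : ℂ) = 0 := by
      have : (2 : ℂ) * (t J : ℂ) = 0 := by linear_combination -h5
      exact (mul_eq_zero.1 this).resolve_left two_ne_zero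
    rw [Pi.zero_apply]
    exact_mod_cast h6

end

end

end Pool.Agent.Y89.TX
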