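import Pool.Agent.Y89.TX.Main2

/-!
# Linked products: powers of `X` in even rank
-/

open Matrix Finset Function

set_option linter.unusedSectionVars false

namespace Pool.Agent.Y89.TX

noncomputable section

open Pool.Agent.W544.PG (HS HW mC cspan cx)
open Pool.Agent.Y89.KS
open Pool.Agent.Y89.TS
open Pool.Agent.Y89.TU hiding KA mem_KA Linked
open Pool.Agent.Y761.TS (act_act act_one actL)

section
variable {n w z k : ℕ} {V : HS n} {W : HW w} {Z : HW z} {Γ : Fin n → Matrix (Fin w) (Fin w) ℚ}
  {c : ℚ} {i : Matrix (Fin z) (Fin w) ℚ} {p : Matrix (Fin w) (Fin z) ℚ}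
  {A : ∀ k : ℕ, Submodule ℚ ((Fin k → Fin n ⊕ Fin z) → ℚ)} {U U' : Matrix (Fin n) (Fin n) ℂ}

/-- extension by zero of a form on `V` -/
def exV (m : ℕ) (t : (Fin k → Fin n) → ℚ) : (Fin k → Fin n ⊕ Fin m) → ℚ :=
  fun J => if h : ∀ s, (J s).isLeft = true then t (fun s => (J s).getLeft (h s)) else 0

theorem exV_inl {m : ℕ} (t : (Fin k → Fin n) → ℚ) (I : Fin k → Fin n) :
    exV m t (fun s => Sum.inl (I s)) = t I := by
  have h : ∀ s, ((fun s => Sum.inl (I s) : Fin k → Fin n ⊕ Fin m) s).isLeft = true := fun s => rfl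
  unfold exV
  rw [dif_pos h]
  rfl

theorem exV_inr {m : ℕ} (t : (Fin k → Fin n) → ℚ) {J : Fin k → Fin n ⊕ Fin m} {s : Fin k}
    {b : Fin m} (h : J s = Sum.inr b) : exV m t J = 0 := by
  unfold exV
  rw [dif_neg]
  intro h1
  have := h1 s
  rw [h] at this
  simp at this

theorem exV_left {m : ℕ} (t : (Fin k → Fin n) → ℚ) {J : Fin k → Fin n ⊕ Fin m}
    (h : exV m t J ≠ 0) (s : Fin k) : (J s).isLeft = true := by
  rcases h1 : J s with a | b
  · rfl
  · exact absurd (exV_inr t h1) h

theorem left_or {m : ℕ} (J : Fin k → Fin n ⊕ Fin m) :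
    (∃ I : Fin k → Fin n, J = fun s => Sum.inl (I s)) ∨ ∃ s b, J s = Sum.inr b := by
  by_cases h : ∀ s, (J s).isLeft = true
  · left
    refine ⟨fun s => (J s).getLeft (h s), ?_⟩
    funext s
    simp
  · right
    push Not at h
    obtain ⟨s, hs⟩ := h
    rcases h1 : J s with a | b
    · rw [h1] at hs
      simp at hs
    · exact ⟨s, b, h1⟩

theorem hodge_exV (W : HW w) (t : (Fin k → Fin n) → ℚ) : IsHodge V W (exV w t) ↔
    ∀ I : Fin k → Fin n, ∑ j, ∑ p, V.x p (I j) * (t (update I j p) : ℂ) = 0 := by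
  have key : ∀ I : Fin k → Fin n, (∑ j, ∑ p, Xop V W p ((fun s => Sum.inl (I s) :
      Fin k → Fin n ⊕ Fin w) j) * (exV w t (update (fun s => Sum.inl (I s)) j p) : ℂ)) =
      ∑ j, ∑ p, V.x p (I j) * (t (update I j p) : ℂ) := by
    intro I
    refine Finset.sum_congr rfl fun j _ => ?_
    rw [Fintype.sum_sum_type]
    have h2 : ∀ b : Fin w, Xop V W (Sum.inr b) (Sum.inl (I j)) = 0 := fun b => rfl
    simp only [h2, zero_mul, Finset.sum_const_zero, add_zero]
    refine Finset.sum_congr rfl fun q _ => ?_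
    have h3 : update (fun s => Sum.inl (I s) : Fin k → Fin n ⊕ Fin w) j (Sum.inl q) =
        fun s => Sum.inl (update I j q s) := by
      funext s
      by_cases hs : s = j
      · subst hs; simp
      · simp [hs]
    rw [h3, exV_inl]
    rfl
  constructor
  · intro h I
    rw [← key I]
    exact h _
  · intro h J
    rcases left_or J with ⟨I, rfl⟩ | ⟨s, b, hs⟩
    · rw [key I, h I]
    · refine Finset.sum_eq_zero fun j _ => Finset.sum_eq_zero fun q _ => ?_
      by_cases hj : j = s
      · subst hj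
        rcases q with q | q
        · have : Xop V W (Sum.inl q) (J j) = 0 := by rw [hs]; rfl
          rw [this, zero_mul]
        · rw [exV_inr t (s := j) (b := q) (by simp)]
          simp
      · rw [exV_inr t (s := s) (b := b) (by rw [update_of_ne (Ne.symm hj), hs])]
        simp

theorem pb_exV (t : (Fin k → Fin n) → ℚ) : pb n p (exV w t) = exV z t := by
  funext J
  unfold pb actR
  rcases left_or J with ⟨I, rfl⟩ | ⟨s, b, hs⟩
  · rw [Finset.sum_eq_single (fun s => Sum.inl (I s))]
    · simp [exV_inl]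
    · intro K _ hK
      rcases left_or K with ⟨L, rfl⟩ | ⟨s, b, hs⟩
      · have h1 : ∃ s, L s ≠ I s := by
          by_contra h2
          push Not at h2
          exact hK (by funext s; rw [h2])
        obtain ⟨s, hs⟩ := h1
        rw [Finset.prod_eq_zero (Finset.mem_univ s) (by simp [hs]), zero_mul]
      · rw [exV_inr t hs, mul_zero]
    · intro h6
      exact absurd (Finset.mem_univ _) h6
  · rw [exV_inr t hs]
    refine Finset.sum_eq_zero fun K _ => ?_
    rcases left_or K with ⟨L, rfl⟩ | ⟨s', b', hs'⟩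
    · rw [Finset.prod_eq_zero (Finset.mem_univ s) (by rw [hs]; simp), zero_mul]
    · rw [exV_inr t hs', mul_zero]

/-- **Powers of `X`, even rank.** -/
theorem main_V (hV : (V.x * V.x).trace = 2) (hS : V.Scalar) (h : Cliff V W Γ c) (hn2 : Even n)
    (hn : 4 ≤ n) (hf : Fac W Z i p) (hA : Cycles V Z A)
    (hH : ∀ k : ℕ, ∀ t ∈ A k, IsHodge V Z t) (hI : Ind V Γ c i p A) (hl : Linked V A)
    {t : (Fin k → Fin n) → ℚ}
    (ht : ∀ I : Fin k → Fin n, ∑ j, ∑ p, V.x p (I j) * (t (update I j p) : ℂ) = 0) :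
    exV z t ∈ A k := by
  have ht' : IsHodge V W (exV w t) := (hodge_exV W t).2 ht
  rcases even_of hn2 hn hV hS h ht' (fun J hJ s => exV_left t hJ s) with h1 | h1
  · have h2 : t = 0 := by
      funext I
      have h3 := congrFun h1 (fun s => Sum.inl (I s))
      rwa [exV_inl] at h3
    have h3 : exV z t = 0 := by
      rw [h2]
      funext J
      unfold exV
      split_ifs <;> rfl
    rw [h3]
    exact (A k).zero_mem
  · rw [← pb_exV (w := w) (p := p)]
    refine main hV hS h (by omega) hf hA hH hI hl ht' h1 fun _ X _ => ?_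
    funext J
    unfold der
    refine Finset.sum_eq_zero fun j _ => ?_
    unfold sl
    refine Finset.sum_eq_zero fun q _ => ?_
    rcases q with q | q
    · rcases h2 : J j with a | b <;> simp
    · have h3 : cx (exV w t) (update J j (Sum.inr q)) = 0 := by
        unfold cx
        rw [exV_inr t (s := j) (b := q) (by simp)]
        simp
      rw [h3, mul_zero]

end

end

end Pool.Agent.Y89.TX
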