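import Pool.Agent.Y89.TX.Main3

/-!
# Linked products: one variable
-/

open Matrix Finset Function

set_option linter.unusedSectionVars false

namespace Pool.Agent.Y89.TX

noncomputable section

open Pool.Agent.W544.PG (HS HW mC cspan cx)
open Pool.Agent.Y89.KS
open Pool.Agent.Y89.TS
open Pool.Agent.Y89.TU hiding KA mem_KA Linked
open Pool.Agent.Y761.TS (act_act act_one actL)

section
variable {n w z k : ℕ} {V : HS n} {W : HW w} {Z : HW z} {Γ : Fin n → Matrix (Fin w) (Fin w) ℚ}
  {c : ℚ} {i : Matrix (Fin z) (Fin w) ℚ} {p : Matrix (Fin w) (Fin z) ℚ}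
  {A : ∀ k : ℕ, Submodule ℚ ((Fin k → Fin n ⊕ Fin z) → ℚ)} {U U' : Matrix (Fin n) (Fin n) ℂ}

/-- there are no Hodge classes in one variable -/
theorem lin_zero' (hV : (V.x * V.x).trace = 2) (hS : V.Scalar)
    {t : (Fin 1 → Fin n ⊕ Fin w) → ℚ} (ht : IsHodge V W t) : t = 0 := by
  obtain ⟨U, U', hU, hUU, -⟩ := exists_onb V (c := 1) one_ne_zero
  have h1 : ∀ p : Fin n ⊕ Fin w, ∑ q, Xop V W q p * (t (fun _ => q) : ℂ) = 0 := by
    intro p
    have h2 := ht (fun _ => p)
    rw [Fin.sum_univ_one] at h2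
    have h3 : ∀ q, Function.update (fun _ : Fin 1 => p) 0 q = fun _ => q := by
      intro q
      funext i
      rw [Subsingleton.elim i 0, Function.update_self]
    simp only [h3] at h2
    exact h2
  have hu : (fun i : Fin n => (t (fun _ => Sum.inl i) : ℂ)) = 0 := by
    refine van (c := 1) hU hUU (KS.two_le V hV) one_ne_zero ?_ hV hS
    intro z hz
    let L : Submodule ℂ (Matrix (Fin n) (Fin n) ℂ) :=
      { carrier := {z | zᵀ *ᵥ (fun i : Fin n => (t (fun _ => Sum.inl i) : ℂ)) = 0}
        zero_mem' := by simp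
        add_mem' := by
          intro a b ha hb
          rw [Set.mem_ofPred_eq] at *
          rw [transpose_add, Matrix.add_mulVec, ha, hb, add_zero]
        smul_mem' := by
          intro s a ha
          rw [Set.mem_ofPred_eq] at *
          rw [transpose_smul, Matrix.smul_mulVec, ha, smul_zero] }
    refine hz L ?_ ?_
    · intro a ha b hb
      change aᵀ *ᵥ _ = 0 at ha
      change bᵀ *ᵥ _ = 0 at hb
      change (a * b - b * a)ᵀ *ᵥ _ = 0
      rw [transpose_sub, transpose_mul, transpose_mul, Matrix.sub_mulVec, ← Matrix.mulVec_mulVec,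
        ← Matrix.mulVec_mulVec, ha, hb, Matrix.mulVec_zero, Matrix.mulVec_zero, sub_zero]
    · intro σ
      change (V.x.map σ)ᵀ *ᵥ (fun i : Fin n => (t (fun _ => Sum.inl i) : ℂ)) = 0
      funext p
      have h2 := congrArg σ (h1 (Sum.inl p))
      rw [map_sum, map_zero, Fintype.sum_sum_type] at h2
      simp only [map_mul, map_ratCast] at h2
      have h3 : ∀ q : Fin w, Xop V W (Sum.inr q) (Sum.inl p) = 0 := fun q => rfl
      simp only [h3, map_zero, zero_mul, Finset.sum_const_zero, add_zero] at h2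
      exact h2
  have hv : (fun i : Fin w => (t (fun _ => Sum.inr i) : ℂ)) = 0 := by
    have h2 : W.yᵀ *ᵥ (fun i : Fin w => (t (fun _ => Sum.inr i) : ℂ)) = 0 := by
      funext p
      have h2 := h1 (Sum.inr p)
      rw [Fintype.sum_sum_type] at h2
      have h3 : ∀ q : Fin n, Xop V W (Sum.inl q) (Sum.inr p) = 0 := fun q => rfl
      simp only [h3, zero_mul, Finset.sum_const_zero, zero_add] at h2
      exact h2
    have h3 : (4 : ℂ) • (W.yᵀ * W.yᵀ) = 1 := by
      rw [← transpose_mul, ← transpose_smul, W.sq, transpose_one]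
    calc (fun i : Fin w => (t (fun _ => Sum.inr i) : ℂ))
        = ((4 : ℂ) • (W.yᵀ * W.yᵀ)) *ᵥ (fun i : Fin w => (t (fun _ => Sum.inr i) : ℂ)) := by
          rw [h3, Matrix.one_mulVec]
      _ = 0 := by
          rw [Matrix.smul_mulVec, ← Matrix.mulVec_mulVec, h2, Matrix.mulVec_zero, smul_zero]
  funext J
  have hJ : J = fun _ => J 0 := by
    funext i
    rw [Subsingleton.elim i 0]
  rw [hJ]
  rcases J 0 with i | i
  · have := congrFun hu i
    simp only [Pi.zero_apply] at this
    rw [Pi.zero_apply]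
    exact_mod_cast this
  · have := congrFun hv i
    simp only [Pi.zero_apply] at this
    rw [Pi.zero_apply]
    exact_mod_cast this

theorem tri_ne (hV : (V.x * V.x).trace = 2) (h : Cliff V W Γ c) :
    tri (fun j => W.E * Γ j) ≠ 0 := by
  intro h0
  have h1 : ∀ j, W.E * Γ j = 0 := by
    intro j
    ext a b
    have h2 := congrFun h0 ![Sum.inl j, Sum.inr a, Sum.inr b]
    exact h2
  have h2 : ∀ j, Γ j = 0 := by
    intro j
    have h3 := congrArg (fun M => W.E⁻¹ * M) (h1 j)
    simp only [Matrix.mul_zero] at h3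
    rw [← Matrix.mul_assoc, Matrix.nonsing_inv_mul _ (isUnit_iff_ne_zero.2 (dE W)),
      Matrix.one_mul] at h3
    exact h3
  have h3 : V.Q = 0 := by
    ext a b
    have h4 := h.rel a b
    rw [h2, h2, Matrix.mul_zero, add_zero] at h4
    have h5 := congrFun (congrFun h4 ⟨0, h.pos⟩) ⟨0, h.pos⟩
    simp only [Matrix.zero_apply, Matrix.smul_apply, Matrix.one_apply_eq, smul_eq_mul,
      mul_one] at h5
    rcases mul_eq_zero.1 h5.symm with h6 | h6
    · rcases mul_eq_zero.1 h6 with h7 | h7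
      · norm_num at h7
      · exact absurd h7 h.ne
    · exact h6
  have h4 : 2 ≤ n := KS.two_le V hV
  have : Nonempty (Fin n) := ⟨⟨0, by omega⟩⟩
  apply dQ V
  rw [h3]
  exact Matrix.det_zero

theorem tri_one {C : Fin n → Matrix (Fin w) (Fin w) ℚ} :
    ∀ J, tri C J ≠ 0 → nV J = 1 := by
  intro J hJ
  unfold tri at hJ
  rcases h0 : J 0 with a | a
  · rw [h0, Sum.elim_inl] at hJ
    rcases h1 : J 1 with b | b
    · rw [h1] at hJ
      rcases h2 : J 2 with d | d <;> rw [h2] at hJ <;> simp at hJ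
    · rcases h2 : J 2 with d | d
      · rw [h1, h2] at hJ
        simp at hJ
      · unfold nV
        rw [Finset.card_eq_one]
        refine ⟨0, ?_⟩
        ext s
        simp only [Finset.mem_filter, Finset.mem_univ, true_and, Finset.mem_singleton]
        fin_cases s
        · simp [h0]
        · simp [h1]
        · simp [h2]
  · rw [h0, Sum.elim_inr] at hJ
    exact absurd rfl hJ

theorem main_one (hV : (V.x * V.x).trace = 2) (hS : V.Scalar) (h : Cliff V W Γ c) (hn : 3 ≤ n)
    (hf : Fac W Z i p) (hA : Cycles V Z A) (hH : ∀ k : ℕ, ∀ t ∈ A k, IsHodge V Z t)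
    (hI : Ind V Γ c i p A) (h42 : n % 4 ≠ 2)
    {m : ℕ} {s : (Fin m → Fin n ⊕ Fin w) → ℚ} (hs : IsHodge V W s) (hsA : pb n p s ∈ A m)
    (hs0 : s ≠ 0) (hs1 : ∀ J, s J ≠ 0 → nV J = 1)
    {t : (Fin k → Fin n ⊕ Fin w) → ℚ} (ht : IsHodge V W t) : pb n p t ∈ A k := by
  refine main_odd hV hS h hn hf hA hH hI ?_ h42 hs hsA hs0
    (fun J hJ => by rw [hs1 J hJ]; exact odd_one) ht
  -- the pullback has one variable in `V`
  have h1 : ∀ J, pb n p s J ≠ 0 → nV J = 1 := by
    intro J hJ
    unfold pb actR at hJ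
    obtain ⟨I, -, hI'⟩ := Finset.exists_ne_zero_of_sum_ne_zero hJ
    have h2 := left_ne_zero_of_mul hI'
    have h3 := right_ne_zero_of_mul hI'
    rw [← hs1 I h3]
    unfold nV
    congr 1
    ext s'
    simp only [Finset.mem_filter, Finset.mem_univ, true_and]
    have h4 := Finset.prod_ne_zero_iff.1 h2 s' (Finset.mem_univ _)
    rcases h5 : I s' with a | a <;> rcases h6 : J s' with b | b
    · simp
    · rw [h5, h6] at h4
      simp at h4
    · rw [h5, h6] at h4
      simp at h4
    · simp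
  have h0 : pb n p s ≠ 0 := by
    intro h2
    apply hs0
    have h3 : cx (pb n p s) = cx (pb n p (0 : (Fin m → Fin n ⊕ Fin w) → ℚ)) := by
      rw [h2]
      have h4 : pb n p (0 : (Fin m → Fin n ⊕ Fin w) → ℚ) = (0 : (Fin m → Fin n ⊕ Fin z) → ℚ) := by
        funext J
        unfold pb actR
        simp
      rw [h4]
    rw [pb_cx, pb_cx] at h3
    have h5 := pb_inj hf h3
    funext J
    have h6 := congrFun h5 J
    unfold cx at h6
    rw [Pi.zero_apply]
    have h7 : ((s J : ℚ) : ℂ) = 0 := by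
      rw [h6]
      simp
    exact_mod_cast h7
  obtain ⟨x, hx, hx0⟩ := onevar hV hS h0 h1
  exact ⟨m, _, x, hsA, fun _ J hJ => by rw [h1 J hJ]; exact odd_one, hx, hx0⟩

end

end

end Pool.Agent.Y89.TX
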