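import Pool.Agent.Y89.TX.Fac

/-!
# The symmetries of a system on `V ⊕ Z`
-/

open Matrix Finset Function

set_option linter.unusedSectionVars false

namespace Pool.Agent.Y89.TX

noncomputable section

open Pool.Agent.W544.PG (HS HW mC cspan cx)
open Pool.Agent.Y89.KS
open Pool.Agent.Y89.TS
open Pool.Agent.Y89.TU hiding KA mem_KA Linked
open Pool.Agent.Y761.TS (act_act act_one actL)

section
variable {n w z k : ℕ} {V : HS n} {W : HW w} {Z : HW z} {Γ : Fin n → Matrix (Fin w) (Fin w) ℚ}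
  {c : ℚ} {i : Matrix (Fin z) (Fin w) ℚ} {p : Matrix (Fin w) (Fin z) ℚ}
  {A : ∀ k : ℕ, Submodule ℚ ((Fin k → Fin n ⊕ Fin z) → ℚ)} {U U' : Matrix (Fin n) (Fin n) ℂ}

/-- the blocks of a symmetry -/
structure Blk (V : HS n) (Z : HW z) (g : Matrix (Fin n ⊕ Fin z) (Fin n ⊕ Fin z) ℂ)
    (a a' : Matrix (Fin n) (Fin n) ℂ) (d d' : Matrix (Fin z) (Fin z) ℂ) : Prop where
  eq : g = fromBlocks a 0 0 d
  a1 : a * a' = 1
  a2 : a' * a = 1
  d1 : d * d' = 1
  d2 : d' * d = 1
  aQ : aᵀ * mC V.Q = mC V.Q * a'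
  dE : dᵀ * mC Z.E = mC Z.E * d'
  cm : ∀ e : Matrix (Fin z) (Fin z) ℂ, (∀ σ : ℂ ≃+* ℂ, e * Z.y.map σ = Z.y.map σ * e) →
    d * e = e * d

theorem blk (hA : Cycles V Z A) {g : Matrix (Fin n ⊕ Fin z) (Fin n ⊕ Fin z) ℂ}
    (hg : ∀ (l : ℕ), ∀ x ∈ AC A l, act gᵀ x = x) : ∃ a a' d d', Blk V Z g a a' d d' := by
  have hQ := hg 2 _ (Q_span hA)
  rw [act_bil] at hQ
  have hQ := bil_inj' hQ
  have hE := hg 2 _ (E_span' hA)
  rw [act_bil] at hE
  have hE := bil_inj' hE
  have hgb : g = fromBlocks g.toBlocks₁₁ g.toBlocks₁₂ g.toBlocks₂₁ g.toBlocks₂₂ :=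
    (fromBlocks_toBlocks g).symm
  rw [hgb, fromBlocks_transpose, fromBlocks_multiply, fromBlocks_multiply, fromBlocks_inj]
    at hQ hE
  simp only [Matrix.mul_zero, Matrix.zero_mul, add_zero, zero_add] at hQ hE
  set a := g.toBlocks₁₁
  set d := g.toBlocks₂₂
  obtain ⟨q1, q2, -, -⟩ := hQ
  obtain ⟨-, -, e3, e4⟩ := hE
  obtain ⟨a', ha'⟩ : ∃ a', a' = (mC V.Q)⁻¹ * aᵀ * mC V.Q := ⟨_, rfl⟩
  obtain ⟨d', hd'⟩ : ∃ d', d' = (mC Z.E)⁻¹ * dᵀ * mC Z.E := ⟨_, rfl⟩
  have a2 : a' * a = 1 := by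
    rw [ha', Matrix.mul_assoc, Matrix.mul_assoc, ← Matrix.mul_assoc aᵀ, q1, RQ]
  have a1 : a * a' = 1 := mul_eq_one_comm.1 a2
  have d2 : d' * d = 1 := by
    rw [hd', Matrix.mul_assoc, Matrix.mul_assoc, ← Matrix.mul_assoc dᵀ, e4, Einv']
  have d1 : d * d' = 1 := mul_eq_one_comm.1 d2
  have haQ : aᵀ * mC V.Q = mC V.Q * a' := by
    rw [ha', Matrix.mul_assoc, ← Matrix.mul_assoc (mC V.Q), QRV, Matrix.one_mul]
  have hdE : dᵀ * mC Z.E = mC Z.E * d' := by
    rw [hd', Matrix.mul_assoc, ← Matrix.mul_assoc (mC Z.E), Einv, Matrix.one_mul]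
  have hb0 : g.toBlocks₁₂ = 0 := by
    rw [haQ] at q2
    have h1 := congrArg (fun Z => (mC V.Q)⁻¹ * Z) q2
    simp only [← Matrix.mul_assoc, RQ, Matrix.one_mul, Matrix.mul_zero] at h1
    calc g.toBlocks₁₂ = a * (a' * g.toBlocks₁₂) := by rw [← Matrix.mul_assoc, a1, Matrix.one_mul]
      _ = 0 := by rw [h1, Matrix.mul_zero]
  have he0 : g.toBlocks₂₁ = 0 := by
    rw [hdE] at e3
    have h1 := congrArg (fun M => (mC Z.E)⁻¹ * M) e3
    simp only [← Matrix.mul_assoc, Einv', Matrix.one_mul, Matrix.mul_zero] at h1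
    calc g.toBlocks₂₁ = d * (d' * g.toBlocks₂₁) := by rw [← Matrix.mul_assoc, d1, Matrix.one_mul]
      _ = 0 := by rw [h1, Matrix.mul_zero]
  rw [hb0, he0] at hgb
  refine ⟨a, a', d, d', hgb, a1, a2, d1, d2, haQ, hdE, ?_⟩
  intro e he
  have h3 := hg 2 _ (const_mem hA e he)
  rw [act_bil] at h3
  have h3 := bil_inj' h3
  rw [hgb, fromBlocks_transpose, fromBlocks_multiply, fromBlocks_multiply, fromBlocks_inj] at h3
  simp only [Matrix.mul_zero, Matrix.zero_mul, add_zero, zero_add] at h3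
  have h4 := h3.2.2.2
  rw [← Matrix.mul_assoc, hdE, Matrix.mul_assoc, Matrix.mul_assoc] at h4
  have h5 := E_cancel Z h4
  calc d * e = d * (d' * (e * d)) := by rw [h5]
    _ = e * d := by rw [← Matrix.mul_assoc, d1, Matrix.one_mul]

/-- the restriction of a symmetry to `W` -/
structure Res (V : HS n) (W : HW w) (a a' : Matrix (Fin n) (Fin n) ℂ)
    (d d' : Matrix (Fin w) (Fin w) ℂ) : Prop where
  a1 : a * a' = 1
  a2 : a' * a = 1
  d1 : d * d' = 1
  d2 : d' * d = 1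
  aQ : aᵀ * mC V.Q = mC V.Q * a'
  dE : dᵀ * mC W.E = mC W.E * d'
  cm : ∀ e : Matrix (Fin w) (Fin w) ℂ, (∀ σ : ℂ ≃+* ℂ, e * W.y.map σ = W.y.map σ * e) →
    d * e = e * d

theorem Blk.pd (hf : Fac W Z i p) {g : Matrix (Fin n ⊕ Fin z) (Fin n ⊕ Fin z) ℂ}
    {a a' : Matrix (Fin n) (Fin n) ℂ} {d d' : Matrix (Fin z) (Fin z) ℂ}
    (hg : Blk V Z g a a' d d') : mr p * d = (mr p * d * mr i) * mr p ∧
      d * mr i = mr i * (mr p * d * mr i) ∧ mr p * d' = (mr p * d' * mr i) * mr p ∧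
      d' * mr i = mr i * (mr p * d' * mr i) := by
  have h0 : ∀ σ : ℂ ≃+* ℂ, up' i p 1 * Z.y.map σ = Z.y.map σ * up' i p 1 :=
    up_comm hf (fun σ => by rw [Matrix.one_mul, Matrix.mul_one])
  have h1 := hg.cm _ h0
  unfold up' at h1
  rw [Matrix.mul_one] at h1
  have h2 : d' * (mr i * mr p) = mr i * mr p * d' := by
    calc d' * (mr i * mr p) = d' * ((mr i * mr p) * d) * d' := by
          rw [Matrix.mul_assoc, Matrix.mul_assoc, hg.d1, Matrix.mul_one]
      _ = (d' * d) * (mr i * mr p) * d' := by rw [← h1]; simp only [Matrix.mul_assoc]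
      _ = _ := by rw [hg.d2, Matrix.one_mul]
  refine ⟨?_, ?_, ?_, ?_⟩
  · calc mr p * d = (mr p * mr i) * mr p * d := by rw [hf.pi, Matrix.one_mul]
      _ = mr p * (mr i * mr p * d) := by simp only [Matrix.mul_assoc]
      _ = _ := by rw [← h1]; simp only [Matrix.mul_assoc]
  · calc d * mr i = d * (mr i * (mr p * mr i)) := by rw [hf.pi, Matrix.mul_one]
      _ = (d * (mr i * mr p)) * mr i := by simp only [Matrix.mul_assoc]
      _ = _ := by rw [h1]; simp only [Matrix.mul_assoc]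
  · calc mr p * d' = (mr p * mr i) * mr p * d' := by rw [hf.pi, Matrix.one_mul]
      _ = mr p * (mr i * mr p * d') := by simp only [Matrix.mul_assoc]
      _ = _ := by rw [← h2]; simp only [Matrix.mul_assoc]
  · calc d' * mr i = d' * (mr i * (mr p * mr i)) := by rw [hf.pi, Matrix.mul_one]
      _ = (d' * (mr i * mr p)) * mr i := by simp only [Matrix.mul_assoc]
      _ = _ := by rw [h2]; simp only [Matrix.mul_assoc]

theorem Blk.res (hf : Fac W Z i p) {g : Matrix (Fin n ⊕ Fin z) (Fin n ⊕ Fin z) ℂ}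
    {a a' : Matrix (Fin n) (Fin n) ℂ} {d d' : Matrix (Fin z) (Fin z) ℂ}
    (hg : Blk V Z g a a' d d') :
    Res V W a a' (mr p * d * mr i) (mr p * d' * mr i) := by
  obtain ⟨h1, h2, h3, h4⟩ := hg.pd hf
  refine ⟨hg.a1, hg.a2, ?_, ?_, hg.aQ, ?_, ?_⟩
  · calc mr p * d * mr i * (mr p * d' * mr i) = mr p * d * (mr i * (mr p * d' * mr i)) := by
          simp only [Matrix.mul_assoc]
      _ = mr p * (d * d') * mr i := by rw [← h4]; simp only [Matrix.mul_assoc]
      _ = 1 := by rw [hg.d1, Matrix.mul_one, hf.pi]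
  · calc mr p * d' * mr i * (mr p * d * mr i) = mr p * d' * (mr i * (mr p * d * mr i)) := by
          simp only [Matrix.mul_assoc]
      _ = mr p * (d' * d) * mr i := by rw [← h2]; simp only [Matrix.mul_assoc]
      _ = 1 := by rw [hg.d2, Matrix.mul_one, hf.pi]
  · rw [transpose_mul, transpose_mul]
    calc (mr i)ᵀ * (dᵀ * (mr p)ᵀ) * mC W.E = (mr i)ᵀ * dᵀ * ((mr p)ᵀ * mC W.E) := by
          simp only [Matrix.mul_assoc]
      _ = (mr i)ᵀ * (dᵀ * mC Z.E) * mr i := by rw [← hf.Ei]; simp only [Matrix.mul_assoc]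
      _ = ((mr i)ᵀ * mC Z.E) * d' * mr i := by rw [hg.dE]; simp only [Matrix.mul_assoc]
      _ = mC W.E * (mr p * d' * mr i) := by rw [hf.iE]; simp only [Matrix.mul_assoc]
  · intro e he
    have h5 := hg.cm _ (up_comm hf he)
    unfold up' at h5
    calc mr p * d * mr i * e = mr p * d * (mr i * e * (mr p * mr i)) := by
          rw [hf.pi, Matrix.mul_one]; simp only [Matrix.mul_assoc]
      _ = mr p * (d * (mr i * e * mr p)) * mr i := by simp only [Matrix.mul_assoc]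
      _ = (mr p * mr i) * e * (mr p * d * mr i) := by rw [h5]; simp only [Matrix.mul_assoc]
      _ = _ := by rw [hf.pi, Matrix.one_mul]

theorem Res.cD {a a' : Matrix (Fin n) (Fin n) ℂ} {d d' : Matrix (Fin w) (Fin w) ℂ}
    (hd : Res V W a a' d d') :
    ∀ D : Matrix (Fin w) (Fin w) ℚ, mC D * W.y = W.y * mC D → d * mC D = mC D * d := by
  intro D hD
  refine hd.cm _ fun σ => ?_
  have h1 := congrArg (fun M : Matrix (Fin w) (Fin w) ℂ => M.map σ) hD
  simp only [mul_map', mC_map'] at h1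
  exact h1

theorem Res.skew {a a' : Matrix (Fin n) (Fin n) ℂ} {d d' : Matrix (Fin w) (Fin w) ℂ}
    (hd : Res V W a a' d d') {x : Matrix (Fin n) (Fin n) ℂ}
    (hx : xᵀ * mC V.Q + mC V.Q * x = 0) :
    (a * x * a')ᵀ * mC V.Q + mC V.Q * (a * x * a') = 0 := by
  have h1 : a'ᵀ * mC V.Q = mC V.Q * a := by
    have h2 := congrArg Matrix.transpose hd.aQ
    rw [transpose_mul, transpose_mul, transpose_transpose, Qt] at h2
    exact h2.symm
  rw [transpose_mul, transpose_mul]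
  calc a'ᵀ * (xᵀ * aᵀ) * mC V.Q + mC V.Q * (a * x * a')
      = a'ᵀ * xᵀ * (aᵀ * mC V.Q) + mC V.Q * (a * x * a') := by simp only [Matrix.mul_assoc]
    _ = a'ᵀ * (xᵀ * mC V.Q) * a' + mC V.Q * (a * x * a') := by
        rw [hd.aQ]; simp only [Matrix.mul_assoc]
    _ = -(a'ᵀ * mC V.Q * x * a') + mC V.Q * (a * x * a') := by
        rw [eq_neg_of_add_eq_zero_left hx, Matrix.mul_neg, Matrix.neg_mul]
        simp only [Matrix.mul_assoc]
    _ = 0 := by
        rw [h1]
        simp only [Matrix.mul_assoc, neg_add_cancel]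

/-- the conjugates of the spin operators, up to `KA` -/
theorem conj_KA (hf : Fac W Z i p) (hI : Ind V Γ c i p A)
    {g : Matrix (Fin n ⊕ Fin z) (Fin n ⊕ Fin z) ℂ} (hgA : ∀ (l : ℕ), ∀ x ∈ AC A l, act gᵀ x = x)
    {a a' : Matrix (Fin n) (Fin n) ℂ} {d d' : Matrix (Fin z) (Fin z) ℂ}
    (hg : Blk V Z g a a' d d') {x : Matrix (Fin n) (Fin n) ℂ}
    (hx : xᵀ * mC V.Q + mC V.Q * x = 0) :
    (mr p * d * mr i) * sp V Γ c x * (mr p * d' * mr i) - sp V Γ c (a * x * a') ∈ KA A i p := by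
  have hr : Res V W a a' (mr p * d * mr i) (mr p * d' * mr i) := hg.res hf
  obtain ⟨h1, h2, h3, h4⟩ := hg.pd hf
  have hz1 := hI x hx
  have hz2 := hI _ (hr.skew hx)
  have hz3 : fromBlocks (a * x * a') 0 0
      (up' i p ((mr p * d * mr i) * sp V Γ c x * (mr p * d' * mr i))) ∈ LA A := by
    intro l t ht
    have e1 : up' i p ((mr p * d * mr i) * sp V Γ c x * (mr p * d' * mr i)) =
        d * up' i p (sp V Γ c x) * d' := by
      unfold up'
      calc mr i * (mr p * d * mr i * sp V Γ c x * (mr p * d' * mr i)) * mr p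
          = (mr i * (mr p * d * mr i)) * sp V Γ c x * ((mr p * d' * mr i) * mr p) := by
            simp only [Matrix.mul_assoc]
        _ = _ := by rw [← h2, ← h3]; simp only [Matrix.mul_assoc]
    rw [e1]
    set Y := fromBlocks (a * x * a') 0 0 (d * up' i p (sp V Γ c x) * d') with hY
    have hYg : Y * g = g * fromBlocks x 0 0 (up' i p (sp V Γ c x)) := by
      rw [hY, hg.eq, fromBlocks_multiply, fromBlocks_multiply]
      simp only [Matrix.mul_zero, Matrix.zero_mul, add_zero, zero_add]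
      rw [Matrix.mul_assoc _ a' a, hg.a2, Matrix.mul_one, Matrix.mul_assoc _ d' d, hg.d2,
        Matrix.mul_one]
    have h3 : act gᵀ (der Y (cx t)) = 0 := by
      rw [act_der g Y _ hYg (cx t), hgA l _ (cx_mem ht)]
      exact hz1 l t ht
    set g' := fromBlocks a' 0 0 d' with hg'
    have hgg : g * g' = 1 := by
      rw [hg.eq, hg', fromBlocks_multiply]
      simp only [Matrix.mul_zero, Matrix.zero_mul, add_zero, zero_add]
      rw [hg.a1, hg.d1, fromBlocks_one]
    have h4 := congrArg (act g'ᵀ) h3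
    rw [act_act, ← Matrix.transpose_mul, hgg, Matrix.transpose_one, act_one] at h4
    rw [h4]
    exact map_zero (actL g'ᵀ l)
  have hz4 := (LA A).sub_mem hz3 hz2
  rw [sub_eq_add_neg, fromBlocks_neg, fromBlocks_add, add_neg_cancel] at hz4
  simp only [neg_zero, add_zero] at hz4
  rw [← sub_eq_add_neg, up_sub] at hz4
  exact mem_KA.2 hz4

/-- the bracket of two elementary skew operators -/
theorem wdg_brk (hU : Uᵀ * ((c : ℂ) • mC V.Q) * U = 1) (c0 : (c : ℂ) ≠ 0) {j l m : Fin n}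
    (hjl : j ≠ l) (hjm : j ≠ m) (hlm : l ≠ m) :
    wdg (mC V.Q) (U.col j) (U.col m) * wdg (mC V.Q) (U.col m) (U.col l) -
      wdg (mC V.Q) (U.col m) (U.col l) * wdg (mC V.Q) (U.col j) (U.col m) =
    (c : ℂ)⁻¹ • wdg (mC V.Q) (U.col j) (U.col l) := by
  have hq : ∀ a b, (mC V.Q *ᵥ U.col a) ⬝ᵥ U.col b = (c : ℂ)⁻¹ * (if a = b then 1 else 0) := by
    intro a b
    have h1 := col_form (V := V) hU b a
    rw [dotProduct_comm, ← mul_right_inj' c0, h1, ← mul_assoc, mul_inv_cancel₀ c0, one_mul]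
    by_cases hab : a = b
    · subst hab; simp
    · rw [if_neg hab, if_neg (Ne.symm hab)]
  unfold wdg
  simp only [Matrix.sub_mul, Matrix.mul_sub, Matrix.vecMulVec_mul_vecMulVec, hq]
  simp only [if_neg hjl, if_neg hjm, if_neg hlm, if_neg hjl.symm, if_neg hjm.symm,
    if_neg hlm.symm, if_true, mul_one, mul_zero, Matrix.vecMulVec_smul, Matrix.vecMulVec_zero,
    zero_smul, sub_zero, zero_sub, smul_sub]
  rw [neg_neg]

/-- skew operators are combinations of the elementary ones -/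
theorem skew_ind (hU : Uᵀ * ((c : ℂ) • mC V.Q) * U = 1) (hUU : U * U' = 1)
    (L : Submodule ℂ (Matrix (Fin n) (Fin n) ℂ))
    (hL : ∀ j l, j ≠ l → wdg (mC V.Q) (U.col j) (U.col l) ∈ L)
    {x : Matrix (Fin n) (Fin n) ℂ} (hx : xᵀ * mC V.Q + mC V.Q * x = 0) : x ∈ L := by
  -- `x = ∑ (U' x Q⁻¹ U'ᵀ) j l / 2 • wdg (U j) (U l)`
  have hR : (x * (mC V.Q)⁻¹)ᵀ = -(x * (mC V.Q)⁻¹) := by
    have hRQ : (mC V.Q)⁻¹ * mC V.Q = 1 := mul_eq_one_comm.1 (QRV V)
    have hRt : ((mC V.Q)⁻¹)ᵀ = (mC V.Q)⁻¹ := by rw [Matrix.transpose_nonsing_inv, Qt]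
    rw [transpose_mul, hRt]
    calc (mC V.Q)⁻¹ * xᵀ = (mC V.Q)⁻¹ * (xᵀ * mC V.Q) * (mC V.Q)⁻¹ := by
          rw [Matrix.mul_assoc, Matrix.mul_assoc, QRV, Matrix.mul_one]
      _ = -(x * (mC V.Q)⁻¹) := by
          rw [eq_neg_of_add_eq_zero_left hx, Matrix.mul_neg, ← Matrix.mul_assoc, hRQ,
            Matrix.one_mul, Matrix.neg_mul]
  set Y := U' * (x * (mC V.Q)⁻¹) * U'ᵀ with hY
  have hYt : Yᵀ = -Y := by
    rw [hY, transpose_mul, transpose_mul, transpose_transpose, hR, Matrix.neg_mul, Matrix.mul_neg]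
    simp only [Matrix.mul_assoc]
  have hx1 : x = U * Y * Uᵀ * mC V.Q := by
    have h1 : U'ᵀ * Uᵀ = 1 := by rw [← transpose_mul, hUU, transpose_one]
    calc x = (x * (mC V.Q)⁻¹) * mC V.Q := by rw [Matrix.mul_assoc, RQ, Matrix.mul_one]
      _ = (U * U') * (x * (mC V.Q)⁻¹) * (U'ᵀ * Uᵀ) * mC V.Q := by
          rw [hUU, h1, Matrix.one_mul, Matrix.mul_one]
      _ = _ := by rw [hY]; simp only [Matrix.mul_assoc]
  have h2 : U * Y * Uᵀ * mC V.Q =
      ∑ j, ∑ l, (Y j l / 2) • wdg (mC V.Q) (U.col j) (U.col l) := by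
    have h3 : U * Y * Uᵀ * mC V.Q =
        ∑ j, ∑ l, Y j l • Matrix.vecMulVec (U.col j) (mC V.Q *ᵥ U.col l) := by
      have hQs : ∀ a b, mC V.Q a b = mC V.Q b a := fun a b => congrFun (congrFun (Qt V) b) a
      ext a b
      simp only [Matrix.sum_apply, Matrix.smul_apply, Matrix.vecMulVec_apply, smul_eq_mul,
        Matrix.col_apply, Matrix.mulVec, dotProduct]
      rw [Matrix.mul_assoc, Matrix.mul_apply, Finset.sum_comm]
      refine Finset.sum_congr rfl fun l _ => ?_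
      rw [Matrix.mul_apply, Matrix.mul_apply, Finset.sum_mul]
      refine Finset.sum_congr rfl fun j _ => ?_
      have h9 : ∑ m, Uᵀ l m * mC V.Q m b = ∑ m, mC V.Q b m * U m l :=
        Finset.sum_congr rfl fun m _ => by rw [Matrix.transpose_apply, hQs m b, mul_comm]
      rw [h9]
      ring
    have h4 : ∑ j, ∑ l, Y j l • Matrix.vecMulVec (U.col l) (mC V.Q *ᵥ U.col j) =
        -∑ j, ∑ l, Y j l • Matrix.vecMulVec (U.col j) (mC V.Q *ᵥ U.col l) := by
      rw [Finset.sum_comm, ← Finset.sum_neg_distrib]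
      refine Finset.sum_congr rfl fun j _ => ?_
      rw [← Finset.sum_neg_distrib]
      refine Finset.sum_congr rfl fun l _ => ?_
      have h5 : Y l j = -Y j l := congrFun (congrFun hYt j) l
      rw [h5, neg_smul]
    unfold wdg
    simp only [smul_sub, Finset.sum_sub_distrib]
    have h6 : ∀ (F : Fin n → Fin n → Matrix (Fin n) (Fin n) ℂ),
        ∑ j, ∑ l, (Y j l / 2) • F j l = (2 : ℂ)⁻¹ • ∑ j, ∑ l, Y j l • F j l := by
      intro F
      rw [Finset.smul_sum]
      refine Finset.sum_congr rfl fun j _ => ?_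
      rw [Finset.smul_sum]
      refine Finset.sum_congr rfl fun l _ => ?_
      rw [smul_smul]
      congr 1
      ring
    rw [h6, h6, h4, ← h3, smul_neg, sub_neg_eq_add, ← add_smul]
    norm_num
  rw [hx1, h2]
  refine Submodule.sum_mem _ fun j _ => Submodule.sum_mem _ fun l _ => ?_
  by_cases hjl : j = l
  · subst hjl
    have : wdg (mC V.Q) (U.col j) (U.col j) = 0 := by unfold wdg; rw [sub_self]
    rw [this, smul_zero]
    exact L.zero_mem
  · exact L.smul_mem _ (hL j l hjl)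

theorem sp_add' (x y : Matrix (Fin n) (Fin n) ℂ) :
    sp V Γ c (x + y) = sp V Γ c x + sp V Γ c y := map_add (spL V Γ c) x y

theorem sp_smul' (t : ℂ) (x : Matrix (Fin n) (Fin n) ℂ) :
    sp V Γ c (t • x) = t • sp V Γ c x := map_smul (spL V Γ c) t x

/-- if `KA` commutes with the spin Lie algebra, the symmetries normalise the spin representation -/
theorem conj_eq (hV : (V.x * V.x).trace = 2) (hS : V.Scalar) (h : Cliff V W Γ c)
    (hf : Fac W Z i p) (hA : Cycles V Z A) (hI : Ind V Γ c i p A)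
    (hU : Uᵀ * ((c : ℂ) • mC V.Q) * U = 1) (hUU : U * U' = 1) (hn : 3 ≤ n)
    (hK : ∀ e ∈ KA A i p, ∀ j l, j ≠ l → e * (ga Γ U j * ga Γ U l) = ga Γ U j * ga Γ U l * e)
    {g : Matrix (Fin n ⊕ Fin z) (Fin n ⊕ Fin z) ℂ} (hgA : ∀ (l : ℕ), ∀ x ∈ AC A l, act gᵀ x = x)
    {a a' : Matrix (Fin n) (Fin n) ℂ} {d d' : Matrix (Fin z) (Fin z) ℂ}
    (hg : Blk V Z g a a' d d') {x : Matrix (Fin n) (Fin n) ℂ}
    (hx : xᵀ * mC V.Q + mC V.Q * x = 0) :
    (mr p * d * mr i) * sp V Γ c x * (mr p * d' * mr i) = sp V Γ c (a * x * a') := by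
  have hr : Res V W a a' (mr p * d * mr i) (mr p * d' * mr i) := hg.res hf
  set D := mr p * d * mr i
  set D' := mr p * d' * mr i
  -- the linear map `Δ`
  let Δ : Matrix (Fin n) (Fin n) ℂ →ₗ[ℂ] Matrix (Fin w) (Fin w) ℂ :=
    { toFun := fun x => D * sp V Γ c x * D' - sp V Γ c (a * x * a')
      map_add' := by
        intro x y
        rw [Matrix.mul_add, Matrix.add_mul, sp_add', sp_add', Matrix.mul_add, Matrix.add_mul]
        abel
      map_smul' := by
        intro t x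
        rw [Matrix.mul_smul, Matrix.smul_mul, sp_smul', sp_smul', Matrix.mul_smul,
          Matrix.smul_mul, RingHom.id_apply, smul_sub] }
  have hΔ : ∀ y, yᵀ * mC V.Q + mC V.Q * y = 0 → Δ y ∈ KA A i p :=
    fun y hy => conj_KA hf hI hgA hg hy
  have hcs : ∀ e ∈ KA A i p, ∀ y : Matrix (Fin n) (Fin n) ℂ, yᵀ * mC V.Q + mC V.Q * y = 0 →
      e * sp V Γ c y = sp V Γ c y * e := by
    intro e he y hy
    have h1 := sp_span h hU hUU hy
    generalize sp V Γ c y = s at h1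
    induction h1 using Submodule.span_induction with
    | mem s hs =>
      obtain ⟨j, l, hjl, rfl⟩ := hs
      exact hK e he j l hjl
    | zero => rw [Matrix.mul_zero, Matrix.zero_mul]
    | add s t _ _ hs ht => rw [Matrix.mul_add, Matrix.add_mul, hs, ht]
    | smul r s _ hs => rw [Matrix.mul_smul, Matrix.smul_mul, hs]
  have hcc : ∀ e ∈ KA A i p, ∀ e' ∈ KA A i p, e * e' = e' * e := by
    intro e he e' he'
    refine KA_comm hf hA he (inD_DD h hU hUU (fun j l => ?_))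
    by_cases hjl : j = l
    · subst hjl
      have h2 := (ga_clf h hU).sq j
      rw [h2, Matrix.mul_one, Matrix.one_mul]
    · exact hK e' he' j l hjl
  have hbr : ∀ y y' : Matrix (Fin n) (Fin n) ℂ, yᵀ * mC V.Q + mC V.Q * y = 0 →
      y'ᵀ * mC V.Q + mC V.Q * y' = 0 → Δ (y * y' - y' * y) = 0 := by
    intro y y' hy hy'
    have h1 : sp V Γ c (y * y' - y' * y) = sp V Γ c y * sp V Γ c y' - sp V Γ c y' * sp V Γ c y :=
      h.brk (skew_g0 hV hS hy)
    have h2 : a * (y * y' - y' * y) * a' =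
        (a * y * a') * (a * y' * a') - (a * y' * a') * (a * y * a') := by
      have e1 : ∀ u v : Matrix (Fin n) (Fin n) ℂ, (a * u * a') * (a * v * a') = a * (u * v) * a' := by
        intro u v
        calc (a * u * a') * (a * v * a') = a * u * (a' * a) * v * a' := by
              simp only [Matrix.mul_assoc]
          _ = _ := by rw [hr.a2, Matrix.mul_one]; simp only [Matrix.mul_assoc]
      rw [e1, e1, Matrix.mul_sub, Matrix.sub_mul]
    have h3 : sp V Γ c (a * (y * y' - y' * y) * a') =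
        sp V Γ c (a * y * a') * sp V Γ c (a * y' * a') -
          sp V Γ c (a * y' * a') * sp V Γ c (a * y * a') := by
      rw [h2]
      exact h.brk (skew_g0 hV hS (hr.skew hy))
    have e2 : ∀ u v : Matrix (Fin w) (Fin w) ℂ, D * (u * v) * D' = (D * u * D') * (D * v * D') := by
      intro u v
      calc D * (u * v) * D' = D * u * 1 * v * D' := by
            rw [Matrix.mul_one]; simp only [Matrix.mul_assoc]
        _ = _ := by rw [← hr.d2]; simp only [Matrix.mul_assoc]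
    have h4 : ∀ u : Matrix (Fin n) (Fin n) ℂ,
        D * sp V Γ c u * D' = sp V Γ c (a * u * a') + Δ u := by
      intro u
      change _ = _ + (D * sp V Γ c u * D' - sp V Γ c (a * u * a'))
      abel
    change D * sp V Γ c (y * y' - y' * y) * D' - sp V Γ c (a * (y * y' - y' * y) * a') = 0
    rw [h1, Matrix.mul_sub, Matrix.sub_mul, e2, e2, h4 y, h4 y', h3]
    have c1 := hcs _ (hΔ y hy) _ (hr.skew hy')
    have c2 := hcs _ (hΔ y' hy') _ (hr.skew hy)
    have c3 := hcc _ (hΔ y hy) _ (hΔ y' hy')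
    generalize sp V Γ c (a * y * a') = S at *
    generalize sp V Γ c (a * y' * a') = S' at *
    generalize Δ y = T at *
    generalize Δ y' = T' at *
    rw [Matrix.add_mul, Matrix.mul_add, Matrix.mul_add, Matrix.add_mul, Matrix.mul_add,
      Matrix.mul_add, c1, c2, c3]
    abel
  have h5 : x ∈ LinearMap.ker Δ := by
    refine skew_ind hU hUU _ (fun j l hjl => ?_) hx
    obtain ⟨m, hm⟩ : ∃ m : Fin n, m ≠ j ∧ m ≠ l := by
      have h6 : ({j, l} : Finset (Fin n)).card < (univ : Finset (Fin n)).card := by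
        rw [Finset.card_univ, Fintype.card_fin]
        exact lt_of_le_of_lt Finset.card_le_two (by omega)
      obtain ⟨m, -, hm⟩ := Finset.exists_mem_notMem_of_card_lt_card h6
      refine ⟨m, fun h7 => hm ?_, fun h7 => hm ?_⟩
      · rw [h7]; simp
      · rw [h7]; simp
    have h7 := wdg_brk (V := V) hU h.c0 hjl hm.1.symm hm.2.symm
    have h8 : wdg (mC V.Q) (U.col j) (U.col l) = (c : ℂ) •
        (wdg (mC V.Q) (U.col j) (U.col m) * wdg (mC V.Q) (U.col m) (U.col l) -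
          wdg (mC V.Q) (U.col m) (U.col l) * wdg (mC V.Q) (U.col j) (U.col m)) := by
      rw [h7, smul_smul, mul_inv_cancel₀ h.c0, one_smul]
    rw [LinearMap.mem_ker, h8, map_smul,
      hbr _ _ (wdg_skew V hV hS _ _) (wdg_skew V hV hS _ _), smul_zero]
  exact sub_eq_zero.1 (LinearMap.mem_ker.1 h5)

end

end

end Pool.Agent.Y89.TX
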